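import Pool.Agent.P.MP_767cd9_co.Round

/-! The coarse delivery game. -/

namespace Pool.Agent.P.MP_767cd9_co

open Real MeasureTheory Set

noncomputable section

variable {n : ℕ}

abbrev Pt (n : ℕ) : Type := Fin (n + 1) → ℤ

def Nr (k : ℤ) (v w : Pt n) : Prop := ∀ i, |v i - w i| ≤ k

def AA : ℕ → (ℕ → Fin (n + 1) → Bool) → Set (Lab n)
  | 0, _ => E0 n
  | k + 1, σ => Psi (σ 0) '' AA k (fun t => σ (t + 1))

lemma AA_facts (k : ℕ) : ∀ σ : ℕ → Fin (n + 1) → Bool, AA k σ ⊆ Dom n ∧ IsCompact (AA k σ) ∧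
    mu n (E0 n) ≤ mu n (AA k σ) ∧
    ∀ y ∈ AA k σ, 10000 + k ≤ y.1 ∧ y.1 ≤ 10000 + 1 / 2 + 5 / 4 * k := by
  induction k with
  | zero => exact fun σ => ⟨E0_dom, E0_compact, le_rfl, fun y hy => by simpa using hy.1⟩
  | succ k ih =>
    intro σ
    obtain ⟨h1, h2, h3, h4⟩ := ih (fun t => σ (t + 1))
    have hc : IsCompact (AA (k + 1) σ) := h2.image_of_continuousOn ((Psi_cont _).mono h1)
    refine ⟨?_, hc, h3.trans (expand _ h1 hc.measurableSet), ?_⟩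
    · rintro _ ⟨y, hy, rfl⟩; exact (Psi_facts _ (h1 hy)).1
    · rintro _ ⟨y, hy, rfl⟩
      obtain ⟨-, a1, a2, -⟩ := Psi_facts (σ 0) (h1 hy)
      obtain ⟨b1, b2⟩ := h4 y hy
      push_cast
      constructor <;> linarith

lemma AA_congr (k : ℕ) : ∀ σ σ' : ℕ → Fin (n + 1) → Bool, (∀ t < k, σ t = σ' t) →
    AA k σ = AA k σ' := by
  induction k with
  | zero => intros; rfl
  | succ k ih =>
    intro σ σ' h
    unfold AA
    rw [h 0 (Nat.succ_pos _), ih _ (fun t => σ' (t + 1)) (fun t ht => h _ (by omega))]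

def fw (σ : ℕ → Fin (n + 1) → Bool) (ω : Lab n) : ℕ → Lab n
  | 0 => ω
  | t + 1 => Function.invFunOn (Psi (σ t)) (Dom n) (fw σ ω t)

lemma fw_congr {σ σ' : ℕ → Fin (n + 1) → Bool} (ω : Lab n) (t : ℕ) (h : ∀ a < t, σ a = σ' a) :
    fw σ ω t = fw σ' ω t := by
  induction t with
  | zero => rfl
  | succ t ih => unfold fw; rw [h t (Nat.lt_succ_self _), ih (fun a ha => h a (by omega))]

lemma fw_mem {σ : ℕ → Fin (n + 1) → Bool} {ω : Lab n} {k : ℕ} (h : ω ∈ AA k σ) (t : ℕ) :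
    ∀ r, t + r = k → fw σ ω t ∈ AA r (fun a => σ (a + t)) := by
  induction t with
  | zero => intro r hr; simp only [zero_add] at hr; subst hr; exact h
  | succ t ih =>
    intro r hr
    obtain ⟨y, hy, he⟩ := ih (r + 1) (by omega)
    have hd := (AA_facts r _).1 hy
    simp only [zero_add] at he
    have : fw σ ω (t + 1) = y := by
      unfold fw
      rw [← he]
      exact (Psi_inj _).leftInvOn_invFunOn hd
    rw [this]
    have e : (fun a => σ (a + (t + 1))) = fun a => σ (a + 1 + t) := by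
      funext a; congr 1; omega
    rw [e]; exact hy

lemma fw_step {σ : ℕ → Fin (n + 1) → Bool} {ω : Lab n} {k : ℕ} (h : ω ∈ AA k σ) {t : ℕ}
    (ht : t < k) (i : Fin (n + 1)) :
    |pp (fw σ ω t).1 ((fw σ ω t).2 i) - pp (fw σ ω (t + 1)).1 ((fw σ ω (t + 1)).2 i)
      - 2 * sg (σ t i)| ≤ 1 := by
  obtain ⟨y, hy, he⟩ := fw_mem h t (k - t - 1 + 1) (by omega)
  have hd := (AA_facts _ _).1 hy
  simp only [zero_add] at he
  have : fw σ ω (t + 1) = y := by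
    unfold fw
    rw [← he]
    exact (Psi_inj _).leftInvOn_invFunOn hd
  rw [this, ← he]
  exact (Psi_facts _ hd).2.2.2 i

lemma AA_uniq {σ : ℕ → Fin (n + 1) → Bool} {ω : Lab n} {k k' : ℕ} (h : ω ∈ AA k σ)
    (h' : ω ∈ AA k' σ) : k = k' := by
  wlog hk : k < k' generalizing k k'
  · rcases Nat.lt_or_ge k' k with h1 | h1
    · exact (this h' h h1).symm
    · omega
  have a1 := ((AA_facts _ _).2.2.2 _ (fw_mem h k 0 rfl)).2
  have a2 := ((AA_facts _ _).2.2.2 _ (fw_mem h' k (k' - k) (by omega))).1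
  have : (1 : ℝ) ≤ (k' - k : ℕ) := by exact_mod_cast (by omega : 1 ≤ k' - k)
  simp only [Nat.cast_zero, mul_zero, add_zero] at a1
  linarith

/-- four signs realise a coarse step -/
def sgn (Z : ℕ → Pt n) (τ : ℕ) : Fin (n + 1) → Bool :=
  fun i => decide (((τ % 4 : ℕ) : ℤ) < Z (τ / 4 + 1) i - Z (τ / 4) i + 2)

lemma sgn_congr {Z Z' : ℕ → Pt n} {i : ℕ} (h : ∀ a ≤ i, Z a = Z' a) :
    ∀ τ < 4 * i, sgn Z τ = sgn Z' τ := by
  intro τ hτ
  unfold sgn
  rw [h (τ / 4 + 1) (by omega), h (τ / 4) (by omega)]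

lemma sgn_sum (Z : ℕ → Pt n) (a : ℕ) (i : Fin (n + 1)) (h : |Z a i - Z (a + 1) i| ≤ 2) :
    sg (sgn Z (4 * a) i) + sg (sgn Z (4 * a + 1) i) + sg (sgn Z (4 * a + 1 + 1) i) +
      sg (sgn Z (4 * a + 1 + 1 + 1) i) = 2 * ((Z (a + 1) i - Z a i : ℤ) : ℝ) := by
  unfold sgn
  have e0 : 4 * a / 4 = a := by omega
  have e1 : (4 * a + 1) / 4 = a := by omega
  have e2 : (4 * a + 1 + 1) / 4 = a := by omega
  have e3 : (4 * a + 1 + 1 + 1) / 4 = a := by omega
  have f0 : 4 * a % 4 = 0 := by omega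
  have f1 : (4 * a + 1) % 4 = 1 := by omega
  have f2 : (4 * a + 1 + 1) % 4 = 2 := by omega
  have f3 : (4 * a + 1 + 1 + 1) % 4 = 3 := by omega
  rw [e0, e1, e2, e3, f0, f1, f2, f3]
  rw [abs_sub_comm] at h
  generalize Z (a + 1) i - Z a i = δ at *
  obtain ⟨h1, h2⟩ := abs_le.mp h
  interval_cases δ <;> simp [sg] <;> norm_num

def CC (ω : Lab n) (Z : ℕ → Pt n) (i : ℕ) : Pt n := Z i + cp (fw (sgn Z) ω (4 * i))

lemma CC_step {Z : ℕ → Pt n} {ω : Lab n} {i a : ℕ} (h : ω ∈ AA (4 * i) (sgn Z)) (ha : a < i)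
    (hZ : Nr 2 (Z a) (Z (a + 1))) : Nr 1 (CC ω Z a) (CC ω Z (a + 1)) := by
  intro c
  have s0 := abs_le.mp (fw_step h (t := 4 * a) (by omega) c)
  have s1 := abs_le.mp (fw_step h (t := 4 * a + 1) (by omega) c)
  have s2 := abs_le.mp (fw_step h (t := 4 * a + 1 + 1) (by omega) c)
  have s3 := abs_le.mp (fw_step h (t := 4 * a + 1 + 1 + 1) (by omega) c)
  have hs := sgn_sum Z a c (hZ c)
  have e : 4 * (a + 1) = 4 * a + 1 + 1 + 1 + 1 := by ring
  unfold CC cp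
  simp only [Pi.add_apply]
  rw [e]
  set p := pp (fw (sgn Z) ω (4 * a)).1 ((fw (sgn Z) ω (4 * a)).2 c)
  set p' := pp (fw (sgn Z) ω (4 * a + 1 + 1 + 1 + 1)).1 ((fw (sgn Z) ω (4 * a + 1 + 1 + 1 + 1)).2 c)
  push_cast at hs
  have g1 := Int.floor_le (p / 4)
  have g2 := Int.lt_floor_add_one (p / 4)
  have g3 := Int.floor_le (p' / 4)
  have g4 := Int.lt_floor_add_one (p' / 4)
  have k1 : ((Z a c + ⌊p / 4⌋ - (Z (a + 1) c + ⌊p' / 4⌋) : ℤ) : ℝ) < 2 := by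
    push_cast; linarith [s0.1, s0.2, s1.1, s1.2, s2.1, s2.2, s3.1, s3.2]
  have k2 : (-2 : ℝ) < ((Z a c + ⌊p / 4⌋ - (Z (a + 1) c + ⌊p' / 4⌋) : ℤ) : ℝ) := by
    push_cast; linarith [s0.1, s0.2, s1.1, s1.2, s2.1, s2.2, s3.1, s3.2]
  have k1' : Z a c + ⌊p / 4⌋ - (Z (a + 1) c + ⌊p' / 4⌋) < 2 := by exact_mod_cast k1
  have k2' : -2 < Z a c + ⌊p / 4⌋ - (Z (a + 1) c + ⌊p' / 4⌋) := by exact_mod_cast k2
  rw [abs_le]; omega

lemma cp_bound {y : Lab n} (hy : y ∈ Dom n) {B : ℤ} (hB : y.1 ≤ B) (i : Fin (n + 1)) :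
    |cp y i| ≤ B := by
  have h0 : 0 ≤ y.1 := by linarith [hy.1]
  have h1 : √y.1 ^ 2 = y.1 := Real.sq_sqrt h0
  have h2 := hy.2 i
  have h3 : |pp y.1 (y.2 i)| ≤ 3 * y.1 := by
    have e : pp y.1 (y.2 i) = y.2 i * (|y.2 i| + 2 * √y.1) := by unfold pp; ring
    rw [e, abs_mul, abs_of_nonneg (by positivity : 0 ≤ |y.2 i| + 2 * √y.1)]
    nlinarith [abs_nonneg (y.2 i), Real.sqrt_nonneg y.1]
  obtain ⟨h4, h5⟩ := abs_le.mp h3
  rw [abs_le]
  constructor
  · exact Int.le_floor.mpr (by push_cast; linarith)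
  · have := Int.floor_le (pp y.1 (y.2 i) / 4)
    have : ((cp y i : ℤ) : ℝ) ≤ B := by unfold cp; linarith
    exact_mod_cast this

/-- The delivery lemma. -/
lemma frac (n L m q : ℕ) (hL : 10001 ≤ L)
    (hq : 480000 * (L : ℝ) * (L : ℝ) ^ (-(3 / 250 : ℝ)) * (1 / √L) ^ (n + 1) * m +
      2 ^ (3 * L * (2 ^ (n + 1)) ^ (12 * L)) ≤ q) :
    ∃ (C : Pt n × Fin q → (ℕ → Pt n) → ℕ → Pt n) (slot : (ℕ → Pt n) → ℕ → Fin m → Pt n × Fin q),
      (∀ β Z Z' i, (∀ a ≤ i, Z a = Z' a) → C β Z i = C β Z' i) ∧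
      (∀ Z Z' i, (∀ a ≤ i, Z a = Z' a) → slot Z i = slot Z' i) ∧
      (∀ Z i i' l l', L ≤ i → i < 3 * L → L ≤ i' → i' < 3 * L → slot Z i l = slot Z i' l' →
        i = i' ∧ l = l') ∧
      ∀ Z i l, L ≤ i → i < 3 * L → C (slot Z i l) Z 0 = Z 0 + (slot Z i l).1 ∧
        Nr 10001 (C (slot Z i l) Z i) (Z i) ∧
        ∀ a < i, Nr 2 (Z a) (Z (a + 1)) → Nr 1 (C (slot Z i l) Z a) (C (slot Z i l) Z (a + 1)) := by
  classical
  have hLR : (10001 : ℝ) ≤ L := by exact_mod_cast hL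
  let ext : (Fin (12 * L) → Fin (n + 1) → Bool) → ℕ → Fin (n + 1) → Bool :=
    fun w t => if h : t < 12 * L then w ⟨t, h⟩ else fun _ => true
  let A : Fin (3 * L) × (Fin (12 * L) → Fin (n + 1) → Bool) → Set (Lab n) :=
    fun h => AA (4 * h.1) (ext h.2)
  have hr : ∀ X : Pt n, ∃ lab : Fin q → Lab n, ∀ h, (40000 * m : ℝ) *
      (mu n (A h ∩ SS L X)).toReal ≤ (Finset.univ.filter fun l => lab l ∈ A h ∩ SS L X).card := by
    intro X
    refine round_meas (mu n) A (fun h => (AA_facts _ _).2.1.measurableSet) _ (meas_SS L X) _ _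
      (by positivity) (by positivity) (mu_SS (by linarith) X) q ?_
    simp only [Fintype.card_prod, Fintype.card_fin, Fintype.card_fun, Fintype.card_bool]
    linarith
  choose lab hlab using hr
  have hs : ∀ (i : ℕ) (S : Set (Lab n)), ∃ f : Fin m → Pt n × Fin q,
      (∃ σ, L ≤ i ∧ i < 3 * L ∧ S = AA (4 * i) σ) →
        Function.Injective f ∧ ∀ l, lab (f l).1 (f l).2 ∈ S ∧ cp (lab (f l).1 (f l).2) = (f l).1 := by
    intro i S
    by_cases hex : ∃ σ, L ≤ i ∧ i < 3 * L ∧ S = AA (4 * i) σ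
    swap
    · have hq0 : 0 < q := by
        have : (0 : ℝ) < q := lt_of_lt_of_le (by positivity) hq
        exact_mod_cast this
      exact ⟨fun _ => (0, ⟨0, hq0⟩), fun h => absurd h hex⟩
    obtain ⟨σ, h1, h2, rfl⟩ := hex
    have hA : A (⟨i, h2⟩, fun t => σ t) = AA (4 * i) σ := by
      apply AA_congr
      intro t ht
      simp only [ext]
      rw [dif_pos (by omega)]
    set S := AA (4 * i) σ with hS
    obtain ⟨d1, d2, d3, d4⟩ := AA_facts (4 * i) σ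
    set box : Finset (Pt n) := Fintype.piFinset fun _ => Finset.Icc (-(16 * L : ℤ)) (16 * L)
    have hcov : S ⊆ ⋃ X ∈ box, S ∩ SS L X := by
      intro y hy
      obtain ⟨e1, e2⟩ := d4 y hy
      have i1 : (L : ℝ) ≤ i := by exact_mod_cast h1
      have i2 : (i : ℝ) ≤ 3 * L := by exact_mod_cast h2.le
      push_cast at e1 e2
      have e3 : y.1 ≤ 16 * L := by linarith
      simp only [mem_iUnion]
      refine ⟨cp y, ?_, hy, ⟨by linarith, e3⟩, rfl⟩
      simp only [box, Fintype.mem_piFinset, Finset.mem_Icc]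
      exact fun c => abs_le.mp (cp_bound (d1 hy) (by push_cast; exact e3) c)
    have hfin : ∀ X ∈ box, mu n (S ∩ SS L X) ≠ ⊤ := fun X _ =>
      ne_top_of_le_ne_top ENNReal.ofReal_ne_top
        ((measure_mono inter_subset_right).trans (mu_SS (by linarith) X))
    have hm1 : (1 / 40000 : ℝ) ≤ ∑ X ∈ box, (mu n (S ∩ SS L X)).toReal := by
      rw [← ENNReal.toReal_sum hfin]
      refine (ENNReal.ofReal_le_iff_le_toReal (ENNReal.sum_ne_top.mpr hfin)).mp ?_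
      exact mu_E0.trans (d3.trans ((measure_mono hcov).trans (measure_biUnion_finset_le _ _)))
    set T : Finset (Σ _ : Pt n, Fin q) :=
      box.sigma fun X => Finset.univ.filter fun l => lab X l ∈ S ∩ SS L X
    have hT : m ≤ T.card := by
      have : (m : ℝ) ≤ T.card := by
        rw [Finset.card_sigma]
        push_cast
        refine le_trans ?_ (Finset.sum_le_sum fun X _ => hA ▸ hlab X (⟨i, h2⟩, fun t => σ t))
        rw [← Finset.mul_sum]
        nlinarith [Nat.cast_nonneg (α := ℝ) m]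
      exact_mod_cast this
    obtain ⟨e⟩ := Function.Embedding.nonempty_of_card_le (α := Fin m) (β := T) (by simpa using hT)
    refine ⟨fun l => ((e l).1.1, (e l).1.2), fun _ => ⟨fun l l' hl => e.injective ?_, fun l => ?_⟩⟩
    · obtain ⟨g1, g2⟩ := Prod.mk.inj hl
      exact Subtype.ext (Sigma.ext g1 (heq_of_eq g2))
    · have := (Finset.mem_filter.mp (Finset.mem_sigma.mp (e l).2).2).2
      exact ⟨this.1, this.2.2⟩
  choose f hf using hs
  refine ⟨fun β Z i => CC (lab β.1 β.2) Z i, fun Z i => f i (AA (4 * i) (sgn Z)), ?_, ?_, ?_, ?_⟩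
  · intro β Z Z' i h
    simp only [CC]
    rw [h i le_rfl, fw_congr _ _ (sgn_congr h)]
  · intro Z Z' i h
    simp only
    rw [AA_congr _ _ _ (sgn_congr h)]
  · intro Z i i' l l' h1 h2 h3 h4 he
    obtain ⟨a1, a2⟩ := hf i _ ⟨sgn Z, h1, h2, rfl⟩
    obtain ⟨-, b2⟩ := hf i' _ ⟨sgn Z, h3, h4, rfl⟩
    simp only at he
    have : 4 * i = 4 * i' := AA_uniq (a2 l).1 (he ▸ (b2 l').1)
    obtain rfl : i = i' := by omega
    exact ⟨rfl, a1 he⟩
  · intro Z i l h1 h2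
    obtain ⟨-, a2⟩ := hf i _ ⟨sgn Z, h1, h2, rfl⟩
    obtain ⟨b1, b2⟩ := a2 l
    refine ⟨?_, fun c => ?_, fun a ha hZ => CC_step b1 ha hZ⟩
    · simp only [CC, mul_zero, fw]; rw [b2]
    · have := fw_mem b1 (4 * i) 0 rfl
      simp only [CC, Pi.add_apply, add_sub_cancel_left]
      exact cp_bound (E0_dom this) (by push_cast; linarith [this.1.2]) c

end

end Pool.Agent.P.MP_767cd9_co
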