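import Pool.Agent.P.MP_767cd9_co.Planar

/-! The planar map expands the weighted area `s^(-3/250) ds dm`. -/

namespace Pool.Agent.P.MP_767cd9_co

open Real MeasureTheory Set

noncomputable section

/-- the weight -/
def WW (s : ℝ) : ENNReal := ENNReal.ofReal (s ^ (-(3 / 250 : ℝ)))

def J1 (s m : ℝ) : ℝ := 1 + 1 / (64 * s) - m ^ 2 / (4 * s ^ 2)

def J2 (s m : ℝ) : ℝ := 1 + m ^ 2 / (4 * s ^ 2)

lemma one_dim {f f' : ℝ → ℝ} {I : Set ℝ} (hI : MeasurableSet I) (hc : Convex ℝ I)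
    (hf : ∀ x ∈ I, HasDerivAt f (f' x) x) (hpos : ∀ x ∈ I, 0 < f' x) (g : ℝ → ENNReal) :
    InjOn f I ∧ ∫⁻ x, I.indicator (fun x => ENNReal.ofReal (f' x) * g (f x)) x ≤ ∫⁻ x, g x := by
  have hmono : StrictMonoOn f I := by
    apply strictMonoOn_of_deriv_pos hc (fun x hx => (hf x hx).continuousAt.continuousWithinAt)
    intro x hx
    rw [(hf x (interior_subset hx)).deriv]
    exact hpos x (interior_subset hx)
  refine ⟨hmono.injOn, ?_⟩
  rw [lintegral_indicator hI]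
  have := lintegral_image_eq_lintegral_abs_deriv_mul hI
    (fun x hx => (hf x hx).hasDerivWithinAt) hmono.injOn g
  calc _ = ∫⁻ x in I, ENNReal.ofReal |f' x| * g (f x) := by
        apply setLIntegral_congr_fun hI
        intro x hx
        simp only [abs_of_pos (hpos x hx)]
    _ = ∫⁻ x in f '' I, g x := this.symm
    _ ≤ _ := setLIntegral_le_lintegral _ _

lemma deriv_bb {s : ℝ} (hs : 0 < s) (m : ℝ) : HasDerivAt (fun m => m + bb s m) (J1 s m) m := by
  have hu : 0 < √s := Real.sqrt_pos.mpr hs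
  have hu2 : √s ^ 2 = s := Real.sq_sqrt hs.le
  have h1 : HasDerivAt (fun m : ℝ => m / √s) (1 / √s) m := (hasDerivAt_id m).div_const _
  have h2 := (((h1.pow 3).const_sub 1).div_const 6).sub ((h1.const_sub 1).div_const 32)
  have h3 := (hasDerivAt_id m).add (h2.div_const (2 * √s))
  refine HasDerivAt.congr_deriv h3 ?_
  unfold J1
  generalize √s = u at *
  subst hu2
  simp only [Nat.add_one_sub_one, Nat.cast_ofNat]
  field_simp
  ring

lemma deriv_kk {s : ℝ} (hs : 0 < s) (m : ℝ) : HasDerivAt (fun s => s + kk s m) (J2 s m) s := by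
  have h1 : HasDerivAt (fun s : ℝ => m ^ 2 / s) (-(m ^ 2) / s ^ 2) s := by
    have := (hasDerivAt_const s (m ^ 2)).div (hasDerivAt_id s) hs.ne'
    refine HasDerivAt.congr_deriv this ?_
    simp
  have h3 := (hasDerivAt_id s).add ((h1.const_sub 1).div_const 4)
  refine HasDerivAt.congr_deriv h3 ?_
  unfold J2
  field_simp

lemma J1_pos {s m : ℝ} (hs : 1 ≤ s) (hm : m ∈ Icc (-√s) √s) : 0 < J1 s m := by
  have hu2 : √s ^ 2 = s := Real.sq_sqrt (by linarith)
  have h1 : m ^ 2 ≤ s := by rw [← hu2]; exact sq_le_sq' hm.1 hm.2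
  have h2 : m ^ 2 / (4 * s ^ 2) ≤ 1 / 4 := by
    rw [div_le_iff₀ (by positivity)]; nlinarith
  have h3 : 0 < 1 / (64 * s) := by positivity
  unfold J1; linarith

lemma J2_pos (s m : ℝ) : 0 < J2 s m := by unfold J2; positivity

lemma inj_bb {s : ℝ} (hs : 1 ≤ s) : InjOn (fun m => m + bb s m) (Icc (-√s) √s) :=
  (one_dim measurableSet_Icc (convex_Icc _ _) (fun m _ => deriv_bb (by linarith) m)
    (fun m hm => J1_pos hs hm) (fun _ => 0)).1

lemma inj_kk (m : ℝ) : InjOn (fun s => s + kk s m) (Ioi 0) :=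
  (one_dim measurableSet_Ioi (convex_Ioi _) (fun s hs => deriv_kk hs m)
    (fun s _ => J2_pos s m) (fun _ => 0)).1

/-- the Jacobian inequality -/
lemma jac_ineq {s t m : ℝ} (hs : 10000 ≤ s) (h1 : s + 1 ≤ t) (h2 : t ≤ s + 5 / 4)
    (hm : m ^ 2 ≤ s + 1) :
    s ^ (-(3 / 250 : ℝ)) ≤ J2 (s + 1) m * (J1 t m * t ^ (-(3 / 250 : ℝ))) := by
  have hs0 : 0 < s := by linarith
  have ht0 : 0 < t := by linarith
  set X := m ^ 2 / (4 * (s + 1) ^ 2) with hX
  have hX0 : 0 ≤ X := by positivity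
  have hX1 : X ≤ 1 / (4 * s) := by
    rw [hX, div_le_div_iff₀ (by positivity) (by positivity)]; nlinarith
  have hJ1 : 1 + 1 / (64 * t) - X ≤ J1 t m := by
    unfold J1
    have : m ^ 2 / (4 * t ^ 2) ≤ X :=
      div_le_div_of_nonneg_left (sq_nonneg _) (by positivity) (by nlinarith)
    linarith
  have hr : 1 / s ≤ 1 / 10000 := one_div_le_one_div_of_le (by norm_num) hs
  have hr0 : 0 < 1 / s := by positivity
  have hX2 : X ≤ (1 / s) / 4 := by rw [div_div, mul_comm]; exact hX1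
  have ht1 : (1 / s) * (63 / 64) / 64 ≤ 1 / (64 * t) := by
    rw [div_mul_eq_mul_div, div_div, div_le_div_iff₀ (by positivity) (by positivity)]; nlinarith
  have hJ : 1 + (1 / s) * (151 / 10000) ≤ J2 (s + 1) m * J1 t m := by
    have e : J2 (s + 1) m = 1 + X := rfl
    rw [e]
    have : (1 + X) * (1 + 1 / (64 * t) - X) ≤ (1 + X) * J1 t m :=
      mul_le_mul_of_nonneg_left hJ1 (by linarith)
    have e2 : X * X ≤ (1 / s) / 4 * ((1 / s) / 4) := mul_le_mul hX2 hX2 hX0 (by positivity)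
    have e3 : 0 ≤ X * (1 / (64 * t)) := by positivity
    nlinarith
  -- (t/s)^c ≤ 1 + c (t/s - 1)
  have hb : (t / s) ^ (3 / 250 : ℝ) ≤ 1 + (1 / s) * (151 / 10000) := by
    have e : t / s = 1 + (t - s) / s := by field_simp; ring
    have h3 : (t - s) / s ≤ (1 / s) * (5 / 4) := by
      rw [div_le_iff₀ hs0]; field_simp; linarith
    have h4 : 0 ≤ (t - s) / s := div_nonneg (by linarith) hs0.le
    have := rpow_one_add_le_one_add_mul_self (s := (t - s) / s) (by linarith)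
      (p := 3 / 250) (by norm_num) (by norm_num)
    rw [e]; nlinarith
  have e5 : s ^ (-(3 / 250 : ℝ)) = (t / s) ^ (3 / 250 : ℝ) * t ^ (-(3 / 250 : ℝ)) := by
    rw [Real.div_rpow ht0.le hs0.le, Real.rpow_neg hs0.le, Real.rpow_neg ht0.le]
    have : 0 < t ^ (3 / 250 : ℝ) := by positivity
    field_simp
  rw [e5, ← mul_assoc]
  exact mul_le_mul_of_nonneg_right (le_trans hb hJ) (by positivity)

lemma meas_WW : Measurable WW := by unfold WW; fun_prop

lemma meas_bb : Measurable (fun z : ℝ × ℝ => bb z.1 z.2) := by unfold bb HH; fun_prop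

lemma meas_kk : Measurable (fun z : ℝ × ℝ => kk z.1 z.2) := by unfold kk; fun_prop

def D1 : Set (ℝ × ℝ) := {z | 1 ≤ z.1 ∧ -√z.1 ≤ z.2 ∧ z.2 ≤ √z.1}

lemma meas_D1 : MeasurableSet D1 := by
  unfold D1
  measurability

def G1 (g : ℝ × ℝ → ENNReal) : ℝ × ℝ → ENNReal :=
  D1.indicator fun z => ENNReal.ofReal (J1 z.1 z.2) * (g (z.1, z.2 + bb z.1 z.2) * WW z.1)

def G2 (g : ℝ × ℝ → ENNReal) : ℝ × ℝ → ENNReal :=
  {z : ℝ × ℝ | 0 < z.1}.indicator fun z =>
    ENNReal.ofReal (J2 z.1 z.2) * G1 g (z.1 + kk z.1 z.2, z.2)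

lemma meas_G1 {g : ℝ × ℝ → ENNReal} (hg : Measurable g) : Measurable (G1 g) := by
  unfold G1
  refine Measurable.indicator ?_ meas_D1
  refine Measurable.mul (by unfold J1; fun_prop) (Measurable.mul ?_ (meas_WW.comp measurable_fst))
  exact hg.comp (measurable_fst.prodMk (measurable_snd.add meas_bb))

lemma meas_G2 {g : ℝ × ℝ → ENNReal} (hg : Measurable g) : Measurable (G2 g) := by
  unfold G2
  refine Measurable.indicator ?_ (measurableSet_lt (by fun_prop) (by fun_prop))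
  refine Measurable.mul (by unfold J2; fun_prop) ?_
  exact (meas_G1 hg).comp ((measurable_fst.add meas_kk).prodMk measurable_snd)

lemma int_G1 (g : ℝ × ℝ → ENNReal) (s : ℝ) :
    ∫⁻ m, G1 g (s, m) ≤ ∫⁻ m, g (s, m) * WW s := by
  by_cases hs : 1 ≤ s
  · have := (one_dim measurableSet_Icc (convex_Icc _ _) (fun m _ => deriv_bb (by linarith) m)
      (fun m hm => J1_pos hs hm) (fun m => g (s, m) * WW s)).2
    refine le_trans (le_of_eq ?_) this
    congr 1
    funext m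
    unfold G1 D1
    by_cases hm : m ∈ Icc (-√s) √s
    · rw [indicator_of_mem hm, indicator_of_mem (by exact ⟨hs, hm.1, hm.2⟩)]
    · rw [indicator_of_notMem hm, indicator_of_notMem (fun h => hm ⟨h.2.1, h.2.2⟩)]
  · have : ∀ m, G1 g (s, m) = 0 := fun m => indicator_of_notMem (fun h => hs h.1) _
    simp [this]

lemma int_G2 (g : ℝ × ℝ → ENNReal) (m : ℝ) :
    ∫⁻ s, G2 g (s, m) ≤ ∫⁻ s, G1 g (s, m) :=
  (one_dim measurableSet_Ioi (convex_Ioi _) (fun s hs => deriv_kk hs m)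
    (fun s _ => J2_pos s m) (fun s => G1 g (s, m))).2

def D2 : Set (ℝ × ℝ) := {z | 10000 ≤ z.1 ∧ |z.2| ≤ √z.1}

lemma pt_G2 (g : ℝ × ℝ → ENNReal) (s m : ℝ) :
    D2.indicator (fun z => g (s2 z.1 z.2, z.2 + sh z.1 z.2) * WW z.1) (s, m) ≤
      G2 g (s + 1, m + dl s) := by
  by_cases h : (s, m) ∈ D2
  swap
  · rw [indicator_of_notMem h]; exact zero_le
  rw [indicator_of_mem h]
  obtain ⟨hs, hm⟩ := h
  simp only at hs hm
  obtain ⟨a1, a2, -, -, -, a6, -⟩ := step_facts hs hm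
  have hle : √(s + 1) ≤ √(s2 s m) := Real.sqrt_le_sqrt a1
  obtain ⟨b1, b2⟩ := abs_le.mp a6
  unfold G2
  rw [indicator_of_mem (by show (0 : ℝ) < s + 1; linarith)]
  have e : s + 1 + kk (s + 1) (m + dl s) = s2 s m := rfl
  simp only [e]
  unfold G1
  rw [indicator_of_mem (by exact ⟨by show (1 : ℝ) ≤ s2 s m; linarith,
    by show -√(s2 s m) ≤ m + dl s; linarith, by show m + dl s ≤ √(s2 s m); linarith⟩)]
  have e2 : m + dl s + bb (s2 s m) (m + dl s) = m + sh s m := by unfold sh; ring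
  simp only [e2]
  have hm2 : (m + dl s) ^ 2 ≤ s + 1 := by
    rw [← Real.sq_sqrt (by linarith : 0 ≤ s + 1)]; exact sq_le_sq' b1 b2
  have hj := jac_ineq hs a1 a2 hm2
  have hJ1 : 0 < J1 (s2 s m) (m + dl s) := J1_pos (by linarith) ⟨by linarith, by linarith⟩
  have : WW s ≤ ENNReal.ofReal (J2 (s + 1) (m + dl s)) *
      (ENNReal.ofReal (J1 (s2 s m) (m + dl s)) * WW (s2 s m)) := by
    unfold WW
    rw [← ENNReal.ofReal_mul hJ1.le, ← ENNReal.ofReal_mul (J2_pos _ _).le]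
    exact ENNReal.ofReal_le_ofReal hj
  calc _ ≤ g (s2 s m, m + sh s m) * (ENNReal.ofReal (J2 (s + 1) (m + dl s)) *
      (ENNReal.ofReal (J1 (s2 s m) (m + dl s)) * WW (s2 s m))) := by gcongr
    _ = _ := by ring

lemma planar {g : ℝ × ℝ → ENNReal} (hg : Measurable g) :
    ∫⁻ z : ℝ × ℝ, D2.indicator (fun z => g (s2 z.1 z.2, z.2 + sh z.1 z.2) * WW z.1) z ≤
      ∫⁻ z : ℝ × ℝ, g z * WW z.1 := by
  calc _ ≤ ∫⁻ s, ∫⁻ m, D2.indicator (fun z => g (s2 z.1 z.2, z.2 + sh z.1 z.2) * WW z.1) (s, m) :=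
        lintegral_prod_le _
    _ ≤ ∫⁻ s, ∫⁻ m, G2 g (s + 1, m + dl s) :=
        lintegral_mono fun s => lintegral_mono fun m => pt_G2 g s m
    _ = ∫⁻ s, ∫⁻ m, G2 g (s + 1, m) := by
        congr 1; funext s
        exact lintegral_add_right_eq_self (fun m => G2 g (s + 1, m)) (dl s)
    _ = ∫⁻ s, ∫⁻ m, G2 g (s, m) :=
        lintegral_add_right_eq_self (fun s => ∫⁻ m, G2 g (s, m)) 1
    _ = ∫⁻ m, ∫⁻ s, G2 g (s, m) := lintegral_lintegral_swap (meas_G2 hg).aemeasurable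
    _ ≤ ∫⁻ m, ∫⁻ s, G1 g (s, m) := lintegral_mono fun m => int_G2 g m
    _ = ∫⁻ s, ∫⁻ m, G1 g (s, m) := 
        (lintegral_lintegral_swap (f := fun s m => G1 g (s, m)) (meas_G1 hg).aemeasurable).symm
    _ ≤ ∫⁻ s, ∫⁻ m, g (s, m) * WW s := lintegral_mono fun s => int_G1 g s
    _ = _ := (lintegral_prod (fun z : ℝ × ℝ => g z * WW z.1)
        (hg.mul (meas_WW.comp measurable_fst)).aemeasurable).symm

end

end Pool.Agent.P.MP_767cd9_co
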