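import Pool.Agent.P.MP_767cd9_co.Meas2

/-! The relabelling map in dimension `n + 1`. -/

namespace Pool.Agent.P.MP_767cd9_co

open Real MeasureTheory Set

noncomputable section

abbrev Lab (n : ℕ) : Type := ℝ × (Fin (n + 1) → ℝ)

variable {n : ℕ}

def mx (j : Fin (n + 1) → ℝ) : ℝ := Finset.univ.sup' Finset.univ_nonempty j

lemma le_mx (j : Fin (n + 1) → ℝ) (i : Fin (n + 1)) : j i ≤ mx j :=
  Finset.le_sup' j (Finset.mem_univ i)

lemma ex_mx (j : Fin (n + 1) → ℝ) : ∃ i, mx j = j i := by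
  obtain ⟨i, -, hi⟩ := Finset.exists_mem_eq_sup' (s := Finset.univ) Finset.univ_nonempty j
  exact ⟨i, hi⟩

lemma mx_add (j : Fin (n + 1) → ℝ) (t : ℝ) : mx (fun i => j i + t) = mx j + t := by
  apply le_antisymm
  · obtain ⟨i, hi⟩ := ex_mx (fun i => j i + t)
    rw [hi]; linarith [le_mx j i]
  · obtain ⟨i, hi⟩ := ex_mx j
    rw [hi]; exact le_mx (fun i => j i + t) i

lemma cont_mx : Continuous (mx : (Fin (n + 1) → ℝ) → ℝ) :=
  Continuous.finset_sup'_apply (f := fun i (j : Fin (n + 1) → ℝ) => j i) Finset.univ_nonempty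
    (fun i _ => continuous_apply i)

def Psi0 (y : Lab n) : Lab n := (s2 y.1 (mx y.2), fun i => y.2 i + sh y.1 (mx y.2))

def sg (b : Bool) : ℝ := if b then 1 else -1

def flp (σ : Fin (n + 1) → Bool) (y : Lab n) : Lab n := (y.1, fun i => sg (σ i) * y.2 i)

def Psi (σ : Fin (n + 1) → Bool) (y : Lab n) : Lab n := flp σ (Psi0 (flp σ y))

def Dom (n : ℕ) : Set (Lab n) := {y | 10000 ≤ y.1 ∧ ∀ i, |y.2 i| ≤ √y.1}

def mu (n : ℕ) : Measure (Lab n) := volume.withDensity (fun y => WW y.1)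

lemma sg_sq (b : Bool) : sg b * sg b = 1 := by cases b <;> simp [sg]

lemma abs_sg (b : Bool) : |sg b| = 1 := by cases b <;> simp [sg]

lemma flp_flp (σ : Fin (n + 1) → Bool) (y : Lab n) : flp σ (flp σ y) = y := by
  unfold flp; ext
  · rfl
  · simp only [← mul_assoc, sg_sq, one_mul]

lemma flp_dom (σ : Fin (n + 1) → Bool) {y : Lab n} (h : y ∈ Dom n) : flp σ y ∈ Dom n :=
  ⟨h.1, fun i => by simpa only [flp, abs_mul, abs_sg, one_mul] using h.2 i⟩

lemma pp_sg (b : Bool) (s x : ℝ) : pp s (sg b * x) = sg b * pp s x := by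
  unfold pp; rw [abs_mul, abs_sg]; ring

lemma mx_dom {y : Lab n} (h : y ∈ Dom n) : |mx y.2| ≤ √y.1 := by
  obtain ⟨i, hi⟩ := ex_mx y.2
  rw [hi]; exact h.2 i

lemma Psi0_facts {y : Lab n} (h : y ∈ Dom n) :
    Psi0 y ∈ Dom n ∧ y.1 + 1 ≤ (Psi0 y).1 ∧ (Psi0 y).1 ≤ y.1 + 5 / 4 ∧
      ∀ i, |pp (Psi0 y).1 ((Psi0 y).2 i) - pp y.1 (y.2 i) - 2| ≤ 1 := by
  obtain ⟨a1, a2, a3, a4, a5, -, a7⟩ := step_facts h.1 (mx_dom h)
  refine ⟨⟨by show 10000 ≤ s2 _ _; linarith [h.1], fun i => ?_⟩, a1, a2, fun i => ?_⟩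
  · have := abs_le.mp (h.2 i)
    have := le_mx y.2 i
    show |y.2 i + sh _ _| ≤ √(s2 _ _)
    rw [abs_le]; constructor <;> linarith
  · have := a7 (y.2 i) (abs_le.mp (h.2 i)).1 (le_mx y.2 i)
    show |pp (s2 _ _) (y.2 i + sh _ _) - _ - 2| ≤ 1
    rw [abs_le]; constructor <;> linarith [this.1, this.2]

lemma Psi_facts (σ : Fin (n + 1) → Bool) {y : Lab n} (h : y ∈ Dom n) :
    Psi σ y ∈ Dom n ∧ y.1 + 1 ≤ (Psi σ y).1 ∧ (Psi σ y).1 ≤ y.1 + 5 / 4 ∧
      ∀ i, |pp (Psi σ y).1 ((Psi σ y).2 i) - pp y.1 (y.2 i) - 2 * sg (σ i)| ≤ 1 := by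
  obtain ⟨a1, a2, a3, a4⟩ := Psi0_facts (flp_dom σ h)
  refine ⟨flp_dom σ a1, a2, a3, fun i => ?_⟩
  have := a4 i
  have e1 : pp (Psi σ y).1 ((Psi σ y).2 i) =
      sg (σ i) * pp (Psi0 (flp σ y)).1 ((Psi0 (flp σ y)).2 i) := pp_sg _ _ _
  have e2 : pp y.1 (y.2 i) = sg (σ i) * pp (flp σ y).1 ((flp σ y).2 i) := by
    show _ = sg (σ i) * pp y.1 (sg (σ i) * y.2 i)
    rw [pp_sg, ← mul_assoc, sg_sq, one_mul]
  rw [e1, e2, mul_comm 2, ← mul_sub, ← mul_sub, abs_mul, abs_sg, one_mul]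
  exact this

lemma Psi0_inj : InjOn (Psi0 : Lab n → Lab n) (Dom n) := by
  intro y hy z hz h
  obtain ⟨a1, -, -, -, -, a6, -⟩ := step_facts hy.1 (mx_dom hy)
  obtain ⟨b1, -, -, -, -, b6, -⟩ := step_facts hz.1 (mx_dom hz)
  have h1 : s2 y.1 (mx y.2) = s2 z.1 (mx z.2) := congrArg Prod.fst h
  have h2 : (fun i => y.2 i + sh y.1 (mx y.2)) = fun i => z.2 i + sh z.1 (mx z.2) :=
    congrArg Prod.snd h
  have h3 : mx y.2 + sh y.1 (mx y.2) = mx z.2 + sh z.1 (mx z.2) := by
    rw [← mx_add, ← mx_add, h2]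
  have l1 : √(y.1 + 1) ≤ √(s2 y.1 (mx y.2)) := Real.sqrt_le_sqrt a1
  have l2 : √(z.1 + 1) ≤ √(s2 y.1 (mx y.2)) := h1 ▸ Real.sqrt_le_sqrt b1
  have h4 : mx y.2 + dl y.1 = mx z.2 + dl z.1 := by
    apply inj_bb (s := s2 y.1 (mx y.2)) (by linarith [hy.1])
    · exact ⟨by linarith [(abs_le.mp a6).1], by linarith [(abs_le.mp a6).2]⟩
    · exact ⟨by linarith [(abs_le.mp b6).1], by linarith [(abs_le.mp b6).2]⟩
    · unfold sh at h3
      rw [← h1] at h3
      simp only
      linarith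
  have h5 : y.1 + 1 = z.1 + 1 := by
    apply inj_kk (mx y.2 + dl y.1)
    · show 0 < y.1 + 1; linarith [hy.1]
    · show 0 < z.1 + 1; linarith [hz.1]
    · unfold s2 at h1
      rw [← h4] at h1
      exact h1
  have h6 : y.1 = z.1 := by linarith
  have h7 : mx y.2 = mx z.2 := by rw [h6] at h4; linarith
  ext
  · exact h6
  · rename_i i
    have := congrFun h2 i
    rw [h6, h7] at this
    linarith

lemma Psi_inj (σ : Fin (n + 1) → Bool) : InjOn (Psi σ) (Dom n) := by
  intro y hy z hz h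
  have h1 := congrArg (flp σ) h
  unfold Psi at h1
  rw [flp_flp, flp_flp] at h1
  have := congrArg (flp σ) (Psi0_inj (flp_dom σ hy) (flp_dom σ hz) h1)
  rwa [flp_flp, flp_flp] at this

lemma cont_flp (σ : Fin (n + 1) → Bool) : Continuous (flp σ) := by unfold flp; fun_prop

lemma Psi0_cont : ContinuousOn (Psi0 : Lab n → Lab n) (Dom n) := by
  have hm : Continuous (fun y : Lab n => mx y.2) := cont_mx.comp continuous_snd
  have hd : Continuous (fun y : Lab n => mx y.2 + dl y.1) := by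
    apply hm.add; unfold dl; fun_prop
  have h1 : ContinuousOn (fun y : Lab n => s2 y.1 (mx y.2)) (Dom n) := by
    unfold s2 kk
    refine ContinuousOn.add (by fun_prop) (ContinuousOn.div_const (ContinuousOn.sub
      continuousOn_const ((hd.continuousOn.pow 2).div (by fun_prop) ?_)) _)
    intro y hy; linarith [hy.1]
  have h2 : ∀ y ∈ Dom n, √(s2 y.1 (mx y.2)) ≠ 0 := by
    intro y hy
    have := (step_facts hy.1 (mx_dom hy)).1
    exact (Real.sqrt_pos.mpr (by linarith [hy.1])).ne'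
  have h3 : ContinuousOn (fun y : Lab n => (mx y.2 + dl y.1) / √(s2 y.1 (mx y.2))) (Dom n) :=
    hd.continuousOn.div h1.sqrt h2
  have h4 : ContinuousOn (fun y : Lab n => sh y.1 (mx y.2)) (Dom n) := by
    unfold sh bb
    refine ContinuousOn.add (by unfold dl; fun_prop) (ContinuousOn.div ?_
      (continuousOn_const.mul h1.sqrt) (fun y hy => mul_ne_zero two_ne_zero (h2 y hy)))
    exact (show Continuous HH by unfold HH; fun_prop).comp_continuousOn h3
  exact h1.prodMk (continuousOn_pi.mpr fun i => ContinuousOn.add (by fun_prop) h4)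

lemma Psi_cont (σ : Fin (n + 1) → Bool) : ContinuousOn (Psi σ) (Dom n) :=
  (cont_flp σ).comp_continuousOn
    (Psi0_cont.comp (cont_flp σ).continuousOn (fun _ hy => flp_dom σ hy))

lemma meas_Psi0 : Measurable (Psi0 : Lab n → Lab n) := by
  have hm : Measurable (fun y : Lab n => mx y.2) := (cont_mx.comp continuous_snd).measurable
  unfold Psi0 sh s2 bb kk HH dl
  fun_prop

def om (w : Fin n → ℝ) : ℝ := mx (Fin.cons 0 w)

def TT (z : (Fin n → ℝ) × (ℝ × ℝ)) : Lab n :=
  (z.2.1, fun i => (Fin.cons 0 z.1 : Fin (n + 1) → ℝ) i + (z.2.2 - om z.1))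

lemma meas_om : Measurable (om : (Fin n → ℝ) → ℝ) := by
  refine cont_mx.measurable.comp (measurable_pi_iff.mpr fun i => ?_)
  refine Fin.cases ?_ (fun k => ?_) i
  · simp
  · simpa using measurable_pi_apply k

lemma mp_TT : MeasurePreserving (TT : (Fin n → ℝ) × (ℝ × ℝ) → Lab n) volume volume := by
  have t1 : MeasurePreserving (fun z : (Fin n → ℝ) × (ℝ × ℝ) => (z.1, (z.2.1, z.2.2 - om z.1)))
      (volume.prod (volume.prod volume)) (volume.prod (volume.prod volume)) := by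
    refine MeasurePreserving.skew_product (f := id)
      (g := fun (w : Fin n → ℝ) (z : ℝ × ℝ) => (z.1, z.2 - om w)) (MeasurePreserving.id _) ?_ ?_
    · exact (measurable_fst.comp measurable_snd).prodMk
        ((measurable_snd.comp measurable_snd).sub (meas_om.comp measurable_fst))
    · exact ae_of_all _ fun w =>
        ((MeasurePreserving.id volume).prod (measurePreserving_sub_right volume (om w))).map_eq
  have t2 := (measurePreserving_prodAssoc (volume : Measure ℝ) (volume : Measure ℝ)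
    (volume : Measure (Fin n → ℝ))).comp Measure.measurePreserving_swap
  have t3 : MeasurePreserving (fun z : ℝ × (Fin n → ℝ) => (z.1, z.2 + fun _ => z.1))
      (volume.prod volume) (volume.prod volume) := by
    refine MeasurePreserving.skew_product (f := id)
      (g := fun (x : ℝ) (w : Fin n → ℝ) => w + fun _ => x) (MeasurePreserving.id _) ?_ ?_
    · unfold Function.uncurry; fun_prop
    · exact ae_of_all _ fun x => (measurePreserving_add_right volume _).map_eq
  have t4 := (volume_preserving_piFinSuccAbove (fun _ : Fin (n + 1) => ℝ) 0).symm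
  have := (((MeasurePreserving.id (volume : Measure ℝ)).prod (t4.comp t3)).comp t2).comp t1
  have e : (TT : (Fin n → ℝ) × (ℝ × ℝ) → Lab n) = ((Prod.map id ((MeasurableEquiv.piFinSuccAbove
      (fun _ : Fin (n + 1) => ℝ) 0).symm ∘ fun z : ℝ × (Fin n → ℝ) => (z.1, z.2 + fun _ => z.1))) ∘
      (MeasurableEquiv.prodAssoc ∘ Prod.swap)) ∘
      (fun z : (Fin n → ℝ) × (ℝ × ℝ) => (z.1, (z.2.1, z.2.2 - om z.1))) := by
    funext z
    unfold TT
    ext
    · rfl
    · rename_i i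
      refine Fin.cases ?_ (fun k => ?_) i <;>
        simp [MeasurableEquiv.piFinSuccAbove_symm_apply, Fin.insertNthEquiv,
          MeasurableEquiv.prodAssoc]
  rw [e]
  exact this

lemma mx_TT (z : (Fin n → ℝ) × (ℝ × ℝ)) : mx (TT z).2 = z.2.2 := by
  unfold TT; simp only [mx_add, om]; ring

lemma meas_Dom : MeasurableSet (Dom n) := by unfold Dom; measurability

lemma pull0 {G : Lab n → ENNReal} (hG : Measurable G) :
    ∫⁻ y, (Dom n).indicator (fun y => G (Psi0 y) * WW y.1) y ≤ ∫⁻ y, G y * WW y.1 := by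
  have m1 : Measurable ((Dom n).indicator (fun y => G (Psi0 y) * WW y.1)) :=
    ((hG.comp meas_Psi0).mul (meas_WW.comp measurable_fst)).indicator meas_Dom
  have m2 : Measurable (fun y : Lab n => G y * WW y.1) := hG.mul (meas_WW.comp measurable_fst)
  rw [← mp_TT.lintegral_comp m1, ← mp_TT.lintegral_comp m2]
  refine le_trans (lintegral_prod_le _) ?_
  refine le_trans ?_ (le_of_eq (lintegral_prod _ (m2.comp mp_TT.measurable).aemeasurable).symm)
  refine lintegral_mono fun w => ?_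
  have hg : Measurable (fun z : ℝ × ℝ => G (TT (w, z))) :=
    hG.comp (mp_TT.measurable.comp measurable_prodMk_left)
  refine le_trans (lintegral_mono fun z => ?_) (planar hg)
  by_cases h : TT (w, z) ∈ Dom n
  swap
  · rw [indicator_of_notMem h]; exact zero_le
  have h2 : z ∈ D2 := ⟨h.1, by have := mx_dom h; rw [mx_TT] at this; exact this⟩
  rw [indicator_of_mem h, indicator_of_mem h2]
  apply le_of_eq
  congr 2
  unfold Psi0
  rw [mx_TT]
  unfold TT
  ext
  · rfl
  · simp only; ring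

lemma mp_flp (σ : Fin (n + 1) → Bool) : MeasurePreserving (flp σ) volume volume := by
  have : MeasurePreserving (fun (j : Fin (n + 1) → ℝ) i => sg (σ i) * j i) volume volume := by
    refine volume_preserving_pi (f := fun i (x : ℝ) => sg (σ i) * x) fun i => ?_
    cases σ i
    · simpa [sg] using Measure.measurePreserving_neg (volume : Measure ℝ)
    · simp only [sg, if_true, one_mul]; exact MeasurePreserving.id (volume : Measure ℝ)
  exact (MeasurePreserving.id (volume : Measure ℝ)).prod this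

lemma mu_apply {A : Set (Lab n)} (hA : MeasurableSet A) :
    mu n A = ∫⁻ y, A.indicator 1 y * WW y.1 := by
  unfold mu
  rw [withDensity_apply _ hA, ← lintegral_indicator hA]
  congr 1; funext y
  by_cases h : y ∈ A <;> simp [h]

lemma mu_flp (σ : Fin (n + 1) → Bool) {A : Set (Lab n)} (hA : MeasurableSet A) :
    mu n (flp σ ⁻¹' A) = mu n A := by
  rw [mu_apply hA, mu_apply ((mp_flp σ).measurable hA),
    ← (mp_flp σ).lintegral_comp (f := fun y => A.indicator 1 y * WW y.1)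
      ((measurable_one.indicator hA).mul (meas_WW.comp measurable_fst))]
  rfl

lemma mu_pull0 {B : Set (Lab n)} (hB : MeasurableSet B) : mu n (Dom n ∩ Psi0 ⁻¹' B) ≤ mu n B := by
  rw [mu_apply hB, mu_apply (meas_Dom.inter (meas_Psi0 hB))]
  refine le_trans (le_of_eq ?_) (pull0 (measurable_one.indicator hB))
  congr 1; funext y
  by_cases h : y ∈ Dom n <;> by_cases h' : Psi0 y ∈ B <;> simp [h, h', indicator]

lemma expand (σ : Fin (n + 1) → Bool) {A : Set (Lab n)} (hA : A ⊆ Dom n)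
    (hm : MeasurableSet (Psi σ '' A)) : mu n A ≤ mu n (Psi σ '' A) := by
  have h1 := (mp_flp σ).measurable hm
  calc mu n A ≤ mu n (flp σ ⁻¹' (Dom n ∩ Psi0 ⁻¹' (flp σ ⁻¹' (Psi σ '' A)))) :=
        measure_mono fun y hy => ⟨flp_dom σ (hA hy), ⟨y, hy, rfl⟩⟩
    _ = _ := mu_flp σ (meas_Dom.inter (meas_Psi0 h1))
    _ ≤ _ := mu_pull0 h1
    _ = _ := mu_flp σ hm

end

end Pool.Agent.P.MP_767cd9_co
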