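import Mathlib

/-! Scalar inequalities for the relabelling map. -/

namespace Pool.Agent.P.MP_767cd9_co

open Real

noncomputable section

/-- relative position of a cop with deadline label `s` and index `x` -/
def pp (s x : ℝ) : ℝ := x * |x| + 2 * x * √s

def kk (s m : ℝ) : ℝ := (1 - m ^ 2 / s) / 4

def HH (M : ℝ) : ℝ := (1 - M ^ 3) / 6 - (1 - M) / 32

def bb (s m : ℝ) : ℝ := HH (m / √s) / (2 * √s)

def dl (s : ℝ) : ℝ := √(s + 1) - √s

def s2 (s m : ℝ) : ℝ := s + 1 + kk (s + 1) (m + dl s)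

def sh (s m : ℝ) : ℝ := dl s + bb (s2 s m) (m + dl s)

/-- polynomial version of `pp` -/
def qq (u x : ℝ) : ℝ := x * |x| + 2 * x * u

lemma low_base {u δ x : ℝ} (hu : 0 ≤ u) (hδ : 0 ≤ δ) (h : 2 * u * δ + δ ^ 2 = 1) :
    1 ≤ qq (u + δ) (x + δ) - qq u x := by
  unfold qq
  rcases le_total 0 x with hx | hx
  · rw [abs_of_nonneg hx, abs_of_nonneg (by linarith)]
    nlinarith [mul_nonneg hx hδ]
  · rw [abs_of_nonpos hx]
    rcases le_total 0 (x + δ) with hy | hy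
    · rw [abs_of_nonneg hy]; nlinarith [sq_nonneg (x + δ)]
    · rw [abs_of_nonpos hy]; nlinarith

lemma low_rel {u a b x : ℝ} (hu : 0 ≤ u) (ha : 0 ≤ a) (hab : a ≤ 2 * b) (hbu : b ≤ 2 * u)
    (hx : -u ≤ x) : qq u x ≤ qq (u + a) (x + b) := by
  have hb : 0 ≤ b := by linarith
  unfold qq
  rcases le_total 0 x with h0 | h0
  · rw [abs_of_nonneg h0, abs_of_nonneg (by linarith)]
    nlinarith [mul_nonneg h0 hb, mul_nonneg h0 ha, mul_nonneg hb hu, mul_nonneg ha hb]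
  · rw [abs_of_nonpos h0]
    rcases le_total 0 (x + b) with hy | hy
    · rw [abs_of_nonneg hy]
      have h1 : 0 ≤ (x + b) * (u + a) := mul_nonneg hy (by linarith)
      have h2 : x * u ≤ 0 := mul_nonpos_of_nonpos_of_nonneg h0 hu
      nlinarith [sq_nonneg (x + b), sq_nonneg x]
    · rw [abs_of_nonpos hy]
      rcases le_total a b with h1 | h1
      · have e1 : 0 ≤ (-x) * (b - a) := mul_nonneg (by linarith) (by linarith)
        have e2 : 0 ≤ b * (2 * u - b) := mul_nonneg hb (by linarith)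
        nlinarith [mul_nonneg ha hb]
      · have e1 : 0 ≤ (u + x) * (a - b) := mul_nonneg (by linarith) (by linarith)
        have e2 : 0 ≤ u * (2 * b - a) := mul_nonneg hu (by linarith)
        have e3 : 0 ≤ b * (2 * a - b) := mul_nonneg hb (by linarith)
        nlinarith

lemma up_all {u δ a b m x : ℝ} (hu : 0 ≤ u) (hδ : 0 ≤ δ) (h : 2 * u * δ + δ ^ 2 = 1)
    (ha : 0 ≤ a) (hb : 0 ≤ b) (hx : -u ≤ x) (hxm : x ≤ m) (hm : m ≤ u)
    (h1 : (u + δ) * (2 * a + 4 * b) + b * (b + 2 * a) ≤ 4 * (u - m) * δ)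
    (h2 : 4 * b * u ≤ 1) (h3 : 2 * (δ + a) * (δ + b) + (δ + b) ^ 2 ≤ 1) :
    qq (u + δ + a) (x + (δ + b)) - qq u x ≤ 3 := by
  unfold qq
  rcases le_total 0 x with h0 | h0
  · rw [abs_of_nonneg h0, abs_of_nonneg (by linarith)]
    have e1 : 0 ≤ (m - x) * (2 * δ + a + b) := mul_nonneg (by linarith) (by linarith)
    have e2 : 0 ≤ (u - m) * (a + b) := mul_nonneg (by linarith) (by linarith)
    nlinarith
  · rw [abs_of_nonpos h0]
    rcases le_total 0 (x + (δ + b)) with hy | hy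
    · rw [abs_of_nonneg hy]
      have e1 : 0 ≤ (-x) * (x + (δ + b)) := mul_nonneg (by linarith) hy
      have e2 : 0 ≤ (-x) * (δ + a) := mul_nonneg (by linarith) (by linarith)
      nlinarith [sq_nonneg δ]
    · rw [abs_of_nonpos hy]
      have e1 : 0 ≤ (u + x) * b := mul_nonneg (by linarith) hb
      have e2 : 0 ≤ (-x) * a := mul_nonneg (by linarith) ha
      nlinarith [sq_nonneg δ, sq_nonneg (δ + b)]

lemma HH_eq (M : ℝ) : HH M = (1 - M) * ((1 + M + M ^ 2) / 6 - 1 / 32) := by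
  unfold HH; ring

lemma HH_up {M : ℝ} (h1 : M ≤ 1) (h2 : -1 ≤ M) : HH M ≤ 15 / 32 * (1 - M) := by
  rw [HH_eq]
  have : (1 + M + M ^ 2) / 6 - 1 / 32 ≤ 15 / 32 := by nlinarith
  nlinarith [mul_le_mul_of_nonneg_left this (sub_nonneg.mpr h1)]

lemma HH_lo {M : ℝ} (h1 : M ≤ 1) : (1 - M) * ((1 + M) / 8 + 1 / 200) ≤ HH M := by
  rw [HH_eq]
  apply mul_le_mul_of_nonneg_left _ (by linarith)
  nlinarith [sq_nonneg (M + 1 / 8)]

lemma HH_up' {M : ℝ} (h1 : M ≤ 1) (h2 : -1 ≤ M) : HH M ≤ 1 / 3 := by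
  unfold HH
  have : 0 ≤ (M + 1) * (M ^ 2 - M + 1) := mul_nonneg (by linarith) (by nlinarith)
  nlinarith

lemma core1 {u v : ℝ} (hu : 100 ≤ u) (hv0 : 0 ≤ v) (hv : v ^ 2 = u ^ 2 + 1) :
    u < v ∧ v - u ≤ 1 / 200 ∧ 1 ≤ 2 * v * (v - u) := by
  have huv : u < v := by nlinarith
  have hδv : (v - u) * (v + u) = 1 := by nlinarith
  refine ⟨huv, by nlinarith, by nlinarith⟩

lemma core2 {v w m : ℝ} (hv : 100 ≤ v) (hw0 : 0 ≤ w) (h1 : m ≤ v) (h2 : -v ≤ m)
    (hw : w ^ 2 = v ^ 2 + (1 - m ^ 2 / v ^ 2) / 4) :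
    v ≤ w ∧ w ^ 2 ≤ v ^ 2 + 1 / 4 ∧ 4 * v ^ 2 * (w - v) ≤ v - m ∧ w - v ≤ 1 / 200 ∧
      (w - v) * (2 * v) * 4 ≤ (1 - m / w) * (1 + m / w) := by
  have hvpos : 0 < v := by linarith
  have hw' : 4 * v ^ 2 * (w ^ 2 - v ^ 2) = (v - m) * (v + m) := by
    rw [hw]; field_simp; ring
  have hk0 : 0 ≤ (v - m) * (v + m) := mul_nonneg (by linarith) (by linarith)
  have hv2 : 0 < v ^ 2 := by positivity
  have hwv2 : v ^ 2 ≤ w ^ 2 := by
    have : 0 ≤ 4 * v ^ 2 * (w ^ 2 - v ^ 2) := by linarith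
    have := nonneg_of_mul_nonneg_right this (by positivity)
    linarith
  have hwv : v ≤ w := abs_le_of_sq_le_sq' hwv2 hw0 |>.2
  have hw4 : w ^ 2 ≤ v ^ 2 + 1 / 4 := by
    have : 0 ≤ m ^ 2 / v ^ 2 := by positivity
    linarith
  have hay : 4 * v ^ 2 * (w - v) ≤ v - m := by
    have e1 : 4 * v ^ 2 * (w - v) * (w + v) = (v - m) * (v + m) := by rw [← hw']; ring
    have e2 : (v - m) * (v + m) ≤ (v - m) * (w + v) :=
      mul_le_mul_of_nonneg_left (by linarith) (by linarith)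
    exact le_of_mul_le_mul_right (by linarith) (by linarith : 0 < w + v)
  refine ⟨hwv, hw4, hay, by nlinarith, ?_⟩
  have h4 : (m / w) ^ 2 ≤ m ^ 2 / v ^ 2 := by
    rw [div_pow]
    exact div_le_div_of_nonneg_left (sq_nonneg _) hv2 hwv2
  nlinarith [sq_nonneg (w - v)]

lemma core3 {v w m b : ℝ} (hv : 100 ≤ v) (hwv : v ≤ w) (h1 : m ≤ v) (h2 : -v ≤ m)
    (hay : 4 * v ^ 2 * (w - v) ≤ v - m)
    (he : (w - v) * (2 * v) * 4 ≤ (1 - m / w) * (1 + m / w)) (ha1 : w - v ≤ 1 / 200)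
    (hb : b = HH (m / w) / (2 * w)) :
    0 ≤ b ∧ w - v ≤ 2 * b ∧ 4 * (b * v ^ 2) ≤ v - m ∧ 6 * b * w ≤ 1 := by
  have hwpos : 0 < w := by linarith
  set M := m / w with hM
  have hMw : M * w = m := by simp only [M]; field_simp
  have hM1 : M ≤ 1 := by rw [hM, div_le_one hwpos]; linarith
  have hM2 : -1 ≤ M := by rw [hM, le_div_iff₀ hwpos]; linarith
  have hb2 : b * (2 * w) = HH M := by rw [hb]; field_simp
  have hHup := HH_up hM1 hM2
  have hHlo := HH_lo hM1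
  have hHup' := HH_up' hM1 hM2
  have hH0 : 0 ≤ HH M := le_trans (mul_nonneg (by linarith) (by linarith)) hHlo
  have hb0 : 0 ≤ b := hb ▸ div_nonneg hH0 (by linarith)
  have h1M : (1 - M) * w = w - m := by rw [← hMw]; ring
  have ha0 : 0 ≤ w - v := by linarith
  have hsm : 15 * (w - v) ≤ v - m := by nlinarith
  refine ⟨hb0, ?_, ?_, by linarith⟩
  · have e0 : w - v ≤ 1 - M := by
      have : (w - v) * w ≤ (1 - M) * w := by
        rw [h1M]
        have : (w - v) * w ≤ (w - v) * (4 * v ^ 2) :=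
          mul_le_mul_of_nonneg_left (by nlinarith) ha0
        linarith
      exact le_of_mul_le_mul_right this hwpos
    have e4 : (w - v) * (w - v) ≤ (1 - M) * (1 / 200) :=
      mul_le_mul e0 ha1 ha0 (by linarith)
    have : (w - v) * w ≤ 2 * b * w := by nlinarith
    exact le_of_mul_le_mul_right this hwpos
  · have e1 : b * w ^ 2 * 2 = HH M * w := by rw [← hb2]; ring
    have e2 : HH M * w ≤ 15 / 32 * (1 - M) * w := mul_le_mul_of_nonneg_right hHup hwpos.le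
    have e3 : b * v ^ 2 ≤ b * w ^ 2 := mul_le_mul_of_nonneg_left (by nlinarith) hb0
    nlinarith

lemma core4 {v y δ a b : ℝ} (hv : 100 ≤ v) (hy : 0 ≤ y) (hb : 0 ≤ b) (ha1 : a ≤ 1 / 200)
    (hb1 : b ≤ 1 / 200) (hδ : 1 ≤ 2 * v * δ) (hay : 4 * v ^ 2 * a ≤ y) (hby : 4 * (b * v ^ 2) ≤ y) :
    v * (2 * a + 4 * b) + b * (b + 2 * a) ≤ 4 * y * δ := by
  have hvpos : 0 < v := by linarith
  have f3 : b * (b + 2 * a) * v ≤ b * v ^ 2 := by
    have : (b + 2 * a) ≤ v := by linarith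
    nlinarith [mul_nonneg hb hvpos.le]
  have e1 : (v * (2 * a + 4 * b) + b * (b + 2 * a)) * v ≤ 2 * y := by nlinarith
  have e2 : 2 * y ≤ 4 * y * δ * v := by nlinarith
  exact le_of_mul_le_mul_right (le_trans e1 e2) hvpos

/-- The scalar facts about one step. -/
lemma step_facts {s m : ℝ} (hs : 10000 ≤ s) (hm : |m| ≤ √s) :
    s + 1 ≤ s2 s m ∧ s2 s m ≤ s + 5 / 4 ∧ 0 ≤ sh s m ∧ m + sh s m ≤ √(s2 s m) ∧
      √s ≤ √(s2 s m) ∧ |m + dl s| ≤ √(s + 1) ∧
      ∀ x, -√s ≤ x → x ≤ m →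
        1 ≤ pp (s2 s m) (x + sh s m) - pp s x ∧ pp (s2 s m) (x + sh s m) - pp s x ≤ 3 := by
  set u := √s with hu
  set v := √(s + 1) with hv
  have hu2 : u ^ 2 = s := Real.sq_sqrt (by linarith)
  have hv2 : v ^ 2 = s + 1 := Real.sq_sqrt (by linarith)
  have hu100 : 100 ≤ u := Real.le_sqrt_of_sq_le (by linarith)
  have hv0 : 0 ≤ v := Real.sqrt_nonneg _
  obtain ⟨hm1, hm2⟩ := abs_le.mp hm
  obtain ⟨huv, hδ1, hδ2⟩ := core1 hu100 hv0 (by linarith)
  have hdl : dl s = v - u := rfl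
  have h1 : m + dl s ≤ v := by rw [hdl]; linarith
  have h2 : -v ≤ m + dl s := by rw [hdl]; linarith
  have hk : 0 ≤ kk (s + 1) (m + dl s) := by
    unfold kk
    have : (m + dl s) ^ 2 / (s + 1) ≤ 1 := by
      rw [div_le_one (by linarith), ← hv2]; nlinarith
    linarith
  have hs2 : s + 1 ≤ s2 s m := by unfold s2; linarith
  set w := √(s2 s m) with hw
  have hw2 : w ^ 2 = s2 s m := Real.sq_sqrt (by linarith)
  have hw0 : 0 ≤ w := Real.sqrt_nonneg _
  have hwe : w ^ 2 = v ^ 2 + (1 - (m + dl s) ^ 2 / v ^ 2) / 4 := by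
    rw [hw2, hv2]; rfl
  obtain ⟨hwv, hw4, hay, ha1, he⟩ := core2 (by linarith) hw0 h1 h2 hwe
  set b := bb (s2 s m) (m + dl s) with hb
  obtain ⟨hb0, hab, hby, hbw⟩ := core3 (b := b) (by linarith) hwv h1 h2 hay he ha1 rfl
  have hb1 : b ≤ 1 / 200 := by nlinarith
  have hsh : sh s m = (v - u) + b := rfl
  have hy : v - (m + dl s) = u - m := by rw [hdl]; ring
  rw [hy] at hay hby
  have hc4 := core4 (v := v) (y := u - m) (δ := v - u) (a := w - v) (b := b) (by linarith)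
    (by linarith) hb0 ha1 hb1 hδ2 hay hby
  refine ⟨hs2, by linarith, by rw [hsh]; linarith, ?_, by linarith, abs_le.mpr ⟨h2, h1⟩, ?_⟩
  · rw [hsh]
    have : b ≤ u - m := by nlinarith
    linarith
  · intro x hx1 hx2
    have hbase : 2 * u * (v - u) + (v - u) ^ 2 = 1 := by nlinarith
    have e1 : pp (s2 s m) (x + sh s m) = qq (u + (v - u) + (w - v)) (x + ((v - u) + b)) := by
      unfold pp qq; rw [hsh, ← hw]; ring_nf
    have e2 : pp s x = qq u x := rfl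
    rw [e1, e2]
    constructor
    · have l1 := low_base (x := x) (by linarith : 0 ≤ u) (by linarith : 0 ≤ v - u) hbase
      have l2 := low_rel (u := u + (v - u)) (a := w - v) (b := b) (x := x + (v - u))
        (by linarith) (by linarith) hab (by linarith) (by linarith)
      rw [add_assoc x] at l2
      linarith
    · refine up_all (m := m) (by linarith) (by linarith) hbase (by linarith) hb0 hx1 hx2 hm2
        ?_ (by nlinarith) (by nlinarith)
      have : u + (v - u) = v := by ring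
      rw [this]; exact hc4

end

end Pool.Agent.P.MP_767cd9_co
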