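import Pool.Agent.P.MP_767cd9_co.Rec

/-! Counting the cops and recycling the teams. -/

namespace Pool.Agent.P.MP_767cd9_co

noncomputable section

variable {n : ℕ}

lemma chase_follow' (p : Pt n) (T G : ℕ → Pt n) (t K : ℕ) (h0 : chase p T t = G 0)
    (hT : ∀ a, 0 < a → a ≤ K → T (t + a) = G a) (hG : ∀ a, Nr 1 (G a) (G (a + 1))) (k : ℕ)
    (hk : k ≤ K) : chase p T (t + k) = G k := by
  induction k with
  | zero => exact h0
  | succ k ih =>
    funext c
    rw [← add_assoc]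
    simp only [chase]
    rw [ih (by omega), add_assoc, hT _ (by omega) hk]
    have := abs_le.mp (hG k c)
    omega

lemma top_level {s : ℕ} {ι : Type} (hs : 0 < s) (h : PP n s ι) :
    ∃ (p : Fin 8 × (Fin (n + 1) → Fin 27) × ι → Pt n)
      (G : Fin 8 × (Fin (n + 1) → Fin 27) × ι → (ℕ → Pt n) → ℕ → Pt n),
      (∀ β r r' t, (∀ a < t, r a = r' a) → G β r t = G β r' t) ∧ (∀ β r, G β r 0 = p β) ∧
      (∀ β r t, Nr 1 (G β r t) (G β r (t + 1))) ∧
      ∀ r, (∀ t, Nr 2 (r t) (r (t + 1))) → (∀ t c, |r t c| ≤ (s : ℤ)) →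
        ∀ t, 3 * s ≤ t → ∃ β, G β r (t + 1) = r t := by
  obtain ⟨F, F1, F2, F3, F4⟩ := h
  have hsZ : (0 : ℤ) < s := by exact_mod_cast hs
  let B := Fin 8 × (Fin (n + 1) → Fin 27) × ι
  let X : B → Pt n := fun β c => ((β.2.1 c : ℕ) : ℤ) - 13
  let t0 : B → ℕ → ℕ := fun β t => β.1 * s + (t - 1 - β.1 * s) / (8 * s) * (8 * s)
  let T : B → (ℕ → Pt n) → ℕ → Pt n := fun β r t =>
    if t - t0 β t ≤ 4 * s then F (X β, β.2.2) (fun a => r (t0 β t + a)) (t - t0 β t)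
    else (s : ℤ) • X β
  refine ⟨fun β => (s : ℤ) • X β, fun β r t => chase ((s : ℤ) • X β) (T β r) t, ?_,
    fun _ _ => rfl, fun β r t => chase_lip _ _ _, ?_⟩
  · intro β r r' t h
    refine chase_congr _ _ fun a ha => ?_
    simp only [T]
    split_ifs
    · exact F1 _ _ _ _ fun b hb => h _ (by omega)
    · rfl
  intro r hr hb t ht
  have ht0 : ∀ (β : B) (a b : ℕ), 0 < b → b ≤ 8 * s →
      t0 β (β.1 * s + a * (8 * s) + b) = β.1 * s + a * (8 * s) := by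
    intro β a b h1 h2
    simp only [t0]
    congr 2
    apply Nat.div_eq_of_lt_le (by omega)
    rw [add_mul a 1]; omega
  have hfol : ∀ (β : B) (a : ℕ), chase ((s : ℤ) • X β) (T β r) (β.1 * s + a * (8 * s)) =
      (s : ℤ) • X β → ∀ k ≤ 4 * s, chase ((s : ℤ) • X β) (T β r) (β.1 * s + a * (8 * s) + k) =
        F (X β, β.2.2) (fun b => r (β.1 * s + a * (8 * s) + b)) k := by
    intro β a h k hk
    refine chase_follow' _ _ _ _ (4 * s) (by rw [h, F2]) (fun b h1 h2 => ?_) (F3 _ _) k hk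
    simp only [T]
    rw [ht0 β a b h1 (by omega), Nat.add_sub_cancel_left, if_pos h2]
  have hhome : ∀ (β : B) (a : ℕ), chase ((s : ℤ) • X β) (T β r) (β.1 * s + a * (8 * s)) =
      (s : ℤ) • X β := by
    intro β a
    induction a with
    | zero =>
      have := chase_const ((s : ℤ) • X β) (T β r) ((s : ℤ) • X β) (β.1 * s) 0 ?_ ?_
      · simpa using this
      · intro b _ hb
        have : b - t0 β b = 0 := by simp only [t0]; omega
        simp only [T]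
        rw [this, if_pos (Nat.zero_le _), F2]
      · intro c; simp only [chase, sub_self, abs_zero]; positivity
    | succ a ih =>
      rw [show β.1 * s + (a + 1) * (8 * s) = β.1 * s + a * (8 * s) + 4 * s + 4 * s by ring]
      apply chase_const
      · intro b h1 h2
        have := ht0 β a (b - (β.1 * s + a * (8 * s))) (by omega) (by omega)
        rw [show β.1 * s + a * (8 * s) + (b - (β.1 * s + a * (8 * s))) = b by omega] at this
        simp only [T]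
        rw [this, if_neg (by omega)]
      · rw [hfol β a ih _ le_rfl]
        intro c
        have := Nr_path (F3 (X β, β.2.2) (fun b => r (β.1 * s + a * (8 * s) + b))) 0 (4 * s) c
        rw [F2, zero_add, abs_sub_comm, one_mul] at this
        exact this
  obtain ⟨k, hk1, hk2⟩ : ∃ k, k * s + 3 * s ≤ t ∧ t < k * s + 4 * s := by
    have h1 : 3 ≤ t / s := (Nat.le_div_iff_mul_le hs).mpr ht
    have h3 : t / s * s ≤ t := Nat.div_mul_le_self _ _
    have h4 := Nat.lt_div_mul_add (a := t) hs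
    refine ⟨t / s - 3, ?_, ?_⟩
    · rw [← add_mul, show t / s - 3 + 3 = t / s by omega]; exact h3
    · rw [← add_mul, show t / s - 3 + 4 = t / s + 1 by omega]; linarith
  obtain ⟨⟨X', l⟩, hβ⟩ := F4 (fun b => r (k * s + b)) (fun a => hr (k * s + a)) (t - k * s)
    (by omega) (by omega)
  rw [show k * s + (t - k * s) = t by omega] at hβ
  have hoff : ∀ c, |X' c| ≤ 13 := by
    intro c
    have a1 := abs_le.mp (Nr_path (F3 (X', l) (fun b => r (k * s + b))) 0 (t - k * s + 1) c)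
    rw [zero_add, hβ, F2] at a1
    have a2 := abs_le.mp (hb t c)
    have a7 : ((t - k * s + 1 : ℕ) : ℤ) ≤ 4 * s := by omega
    apply near_scale hsZ
    simp only [Pi.smul_apply, smul_eq_mul] at a1
    rw [abs_le]
    constructor <;> linarith [a1.1, a1.2, a2.1, a2.2]
  let β : B := (⟨k % 8, Nat.mod_lt _ (by norm_num)⟩,
    fun c => ⟨(X' c + 13).toNat, by have := abs_le.mp (hoff c); omega⟩, l)
  have hX : X β = X' := by
    funext c
    have := abs_le.mp (hoff c)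
    simp only [X, β]
    omega
  have hk : (β.1 : ℕ) * s + k / 8 * (8 * s) = k * s := by
    have := Nat.mod_add_div k 8
    calc _ = (k % 8 + 8 * (k / 8)) * s := by simp only [β]; ring
      _ = _ := by rw [this]
  have := hfol β (k / 8) (hhome β _) (t - k * s + 1) (by omega)
  rw [hk, show k * s + (t - k * s + 1) = t + 1 by omega] at this
  refine ⟨β, this.trans ?_⟩
  rw [hX]; exact hβ

lemma levels (n : ℕ) : ∃ (L : ℕ) (K : ℝ), 2 ≤ L ∧ 0 ≤ K ∧ ∀ ℓ : ℕ, ∃ (ι : Type) (_ : Fintype ι),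
    PP n (L ^ ℓ) ι ∧
      (Fintype.card ι : ℝ) ≤ K * ((L : ℝ) ^ ℓ) ^ (((n + 1 : ℕ) : ℝ) / 2 + 1 - 11 / 1000) := by
  obtain ⟨L, hL1, hL2⟩ : ∃ L : ℕ, 10004 ≤ L ∧
      (2 * 480000 * 40035 ^ (n + 1) : ℝ) ≤ (L : ℝ) ^ (1 / 1000 : ℝ) := by
    have := ((tendsto_rpow_atTop (y := 1 / 1000) (by norm_num)).comp
      tendsto_natCast_atTop_atTop).eventually_ge_atTop (2 * 480000 * 40035 ^ (n + 1) : ℝ)
    obtain ⟨L, hL⟩ := ((Filter.eventually_ge_atTop 10004).and this).exists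
    exact ⟨L, hL⟩
  have hLR : (10004 : ℝ) ≤ L := by exact_mod_cast hL1
  have hL0 : (0 : ℝ) < L := by linarith
  set b : ℝ := ((n + 1 : ℕ) : ℝ) / 2 + 1 - 11 / 1000 with hb
  set A : ℝ := 480000 * (L : ℝ) * (L : ℝ) ^ (-(3 / 250 : ℝ)) * (1 / √L) ^ (n + 1) with hA
  set K0 : ℝ := 2 ^ (3 * L * (2 ^ (n + 1)) ^ (12 * L)) with hK0
  set c : ℝ := (L : ℝ) ^ (n + 1) * 40035 ^ (n + 1) with hc
  have hA0 : 0 ≤ A := by positivity
  have hK00 : 0 ≤ K0 := by positivity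
  have hc0 : 0 ≤ c := by positivity
  have hg : 2 * (c * A) ≤ (L : ℝ) ^ b := by
    have e1 : (L : ℝ) ^ (n + 1) * (1 / √L) ^ (n + 1) = (L : ℝ) ^ (((n + 1 : ℕ) : ℝ) / 2) := by
      rw [← mul_pow, mul_one_div, Real.div_sqrt, Real.sqrt_eq_rpow, ← Real.rpow_natCast,
        ← Real.rpow_mul hL0.le]
      congr 1; ring
    have e2 : (L : ℝ) ^ b = (L : ℝ) ^ (1 / 1000 : ℝ) * ((L : ℝ) ^ (((n + 1 : ℕ) : ℝ) / 2) *
        ((L : ℝ) ^ (1 : ℝ) * (L : ℝ) ^ (-(3 / 250 : ℝ)))) := by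
      rw [← Real.rpow_add hL0, ← Real.rpow_add hL0, ← Real.rpow_add hL0]
      congr 1; rw [hb]; ring
    rw [e2, ← e1, Real.rpow_one]
    calc _ = (2 * 480000 * 40035 ^ (n + 1) : ℝ) * ((L : ℝ) ^ (n + 1) * (1 / √L) ^ (n + 1) *
          ((L : ℝ) * (L : ℝ) ^ (-(3 / 250 : ℝ)))) := by rw [hc, hA]; ring
      _ ≤ _ := mul_le_mul_of_nonneg_right hL2 (by positivity)
  have hg2 : 2 ≤ (L : ℝ) ^ b := by
    have : (L : ℝ) ^ (1 : ℝ) ≤ (L : ℝ) ^ b := by
      apply Real.rpow_le_rpow_of_exponent_le (by linarith)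
      have : (1 : ℝ) ≤ ((n + 1 : ℕ) : ℝ) := by exact_mod_cast Nat.succ_pos n
      rw [hb]; linarith
    rw [Real.rpow_one] at this; linarith
  refine ⟨L, c * (K0 + 1) + 1, by omega, by positivity, fun ℓ => ?_⟩
  have e : ∀ ℓ : ℕ, ((L : ℝ) ^ ℓ) ^ b = ((L : ℝ) ^ b) ^ ℓ := fun ℓ => by
    rw [← Real.rpow_natCast, ← Real.rpow_natCast, ← Real.rpow_mul hL0.le, ← Real.rpow_mul hL0.le,
      mul_comm]
  rw [e]
  induction ℓ with
  | zero =>
    refine ⟨Unit, inferInstance, PP_base, ?_⟩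
    have : 0 ≤ c * (K0 + 1) := by positivity
    simpa using this
  | succ ℓ ih =>
    obtain ⟨ι, _, h1, h2⟩ := ih
    refine ⟨_, inferInstance, pow_succ' L ℓ ▸ PP_step (L ^ ℓ) L ⌈A * Fintype.card ι + K0⌉₊ ι
      (by positivity) hL1 (Nat.le_ceil _) h1, ?_⟩
    simp only [Fintype.card_prod, Fintype.card_fun, Fintype.card_fin]
    push_cast
    have h3 : (⌈A * Fintype.card ι + K0⌉₊ : ℝ) ≤ A * Fintype.card ι + K0 + 1 :=
      (Nat.ceil_lt_add_one (by positivity)).le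
    have h4 : (1 : ℝ) ≤ ((L : ℝ) ^ b) ^ ℓ := one_le_pow₀ (by linarith)
    set P := ((L : ℝ) ^ b) ^ ℓ
    set K := c * (K0 + 1) + 1 with hK
    have hK1 : 0 ≤ K := by positivity
    calc _ = c * (⌈A * Fintype.card ι + K0⌉₊ : ℝ) := by rw [hc]; ring
      _ ≤ c * (A * (K * P) + K0 + 1) := by
          gcongr
          exact h3.trans (by gcongr)
      _ ≤ (c * A) * (K * P) + K * P := by nlinarith
      _ ≤ (L : ℝ) ^ b * (K * P) := by nlinarith [mul_nonneg hK1 (by linarith : 0 ≤ P)]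
      _ = _ := by rw [pow_succ]; ring

lemma main (n : ℕ) : ∃ N0 : ℕ, ∀ N ≥ N0, ∃ (k t0 : ℕ) (p : Fin k → Pt n)
    (G : Fin k → (ℕ → Pt n) → ℕ → Pt n),
      (k : ℝ) ≤ (N : ℝ) ^ (((n + 1 : ℕ) : ℝ) / 2 + 1 - 1 / 100) ∧
      (∀ β r r' t, (∀ a < t, r a = r' a) → G β r t = G β r' t) ∧ (∀ β r, G β r 0 = p β) ∧
      (∀ β r t, Nr 1 (G β r t) (G β r (t + 1))) ∧
      ∀ r, (∀ t, Nr 2 (r t) (r (t + 1))) → (∀ t c, |r t c| ≤ (N : ℤ)) →
        ∀ t, t0 ≤ t → ∃ β, G β r (t + 1) = r t := by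
  obtain ⟨L, K, hL, hK, h⟩ := levels n
  set b : ℝ := ((n + 1 : ℕ) : ℝ) / 2 + 1 - 11 / 1000 with hb
  have hb0 : 0 ≤ b := by rw [hb]; have := Nat.cast_nonneg (α := ℝ) (n + 1); linarith
  have := ((tendsto_rpow_atTop (y := 1 / 1000) (by norm_num)).comp
    tendsto_natCast_atTop_atTop).eventually_ge_atTop (8 * 27 ^ (n + 1) * K * (L : ℝ) ^ b)
  obtain ⟨N0, hN0⟩ := Filter.eventually_atTop.mp ((Filter.eventually_ge_atTop 2).and this)
  refine ⟨N0, fun N hN => ?_⟩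
  obtain ⟨hN2, hN3⟩ := hN0 N hN
  obtain ⟨ι, _, h1, h2⟩ := h (Nat.clog L N)
  obtain ⟨p, G, G1, G2, G3, G4⟩ := top_level (by positivity) h1
  have e := (Fintype.equivFin (Fin 8 × (Fin (n + 1) → Fin 27) × ι)).symm
  have l1 : N ≤ L ^ Nat.clog L N := Nat.le_pow_clog (by omega) N
  have l2 : L ^ Nat.clog L N ≤ L * N := by
    have a1 := Nat.pow_pred_clog_lt_self (b := L) (by omega) (x := N) (by omega)
    have a2 : 0 < Nat.clog L N := Nat.clog_pos (by omega) (by omega)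
    rw [show Nat.clog L N = (Nat.clog L N).pred + 1 by rw [Nat.pred_eq_sub_one]; omega, pow_succ']
    exact Nat.mul_le_mul_left _ a1.le
  refine ⟨_, 3 * L ^ Nat.clog L N, fun i => p (e i), fun i => G (e i), ?_, fun β => G1 _,
    fun β => G2 _, fun β => G3 _, fun r hr hN t ht => ?_⟩
  · simp only [Fintype.card_prod, Fintype.card_fun, Fintype.card_fin]
    push_cast
    have hNR : (0 : ℝ) < N := by exact_mod_cast (by omega : 0 < N)
    have l3 : ((L : ℝ) ^ Nat.clog L N) ^ b ≤ (L : ℝ) ^ b * (N : ℝ) ^ b := by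
      rw [← Real.mul_rpow (by positivity) (by positivity)]
      exact Real.rpow_le_rpow (by positivity) (by exact_mod_cast l2) hb0
    calc _ ≤ 8 * (27 ^ (n + 1) * (K * ((L : ℝ) ^ b * (N : ℝ) ^ b))) := by
          gcongr
          exact h2.trans (by gcongr)
      _ = (8 * 27 ^ (n + 1) * K * (L : ℝ) ^ b) * (N : ℝ) ^ b := by ring
      _ ≤ (N : ℝ) ^ (1 / 1000 : ℝ) * (N : ℝ) ^ b := by gcongr; exact hN3
      _ = _ := by rw [← Real.rpow_add hNR, hb]; push_cast; congr 1; ring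
  · obtain ⟨β, hβ⟩ := G4 r hr (fun t c => (hN t c).trans (by exact_mod_cast l1)) t ht
    exact ⟨e.symm β, by simpa using hβ⟩

end

end Pool.Agent.P.MP_767cd9_co
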