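import Pool.Agent.P.MP_767cd9_co.Frac

/-! Recursion over scales. -/

namespace Pool.Agent.P.MP_767cd9_co

noncomputable section

variable {n : ℕ}

def chase (p : Pt n) (T : ℕ → Pt n) : ℕ → Pt n
  | 0 => p
  | t + 1 => fun c => chase p T t c + max (-1) (min 1 (T (t + 1) c - chase p T t c))

lemma chase_lip (p : Pt n) (T : ℕ → Pt n) (t : ℕ) : Nr 1 (chase p T t) (chase p T (t + 1)) := by
  intro c; simp only [chase]; rw [abs_le]; omega

lemma chase_congr (p : Pt n) {T T' : ℕ → Pt n} (t : ℕ) (h : ∀ a ≤ t, T a = T' a) :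
    chase p T t = chase p T' t := by
  induction t with
  | zero => rfl
  | succ t ih => simp only [chase]; rw [h (t + 1) le_rfl, ih (fun a ha => h a (by omega))]

lemma chase_const (p : Pt n) (T : ℕ → Pt n) (y : Pt n) (k : ℕ) : ∀ t, (∀ a, t < a → a ≤ t + k → T a = y) →
    Nr k (chase p T t) y → chase p T (t + k) = y := by
  induction k with
  | zero => intro t _ h; funext c; have := h c; simp at this; simp only [add_zero]; omega
  | succ k ih =>
    intro t h1 h2
    rw [show t + (k + 1) = t + 1 + k by ring]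
    refine ih (t + 1) (fun a ha hb => h1 a (by omega) (by omega)) fun c => ?_
    have := abs_le.mp (h2 c)
    simp only [chase]
    rw [h1 (t + 1) (by omega) (by omega), abs_le]
    push_cast at this
    omega

lemma chase_follow (p : Pt n) (T G : ℕ → Pt n) (t : ℕ) (h0 : chase p T t = G 0)
    (hT : ∀ a, T (t + a) = G a) (hG : ∀ a, Nr 1 (G a) (G (a + 1))) (k : ℕ) :
    chase p T (t + k) = G k := by
  induction k with
  | zero => exact h0
  | succ k ih =>
    funext c
    rw [← add_assoc]
    simp only [chase]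
    rw [ih, add_assoc, hT]
    have := abs_le.mp (hG k c)
    omega

lemma Nr_path {k : ℤ} {r : ℕ → Pt n} (h : ∀ t, Nr k (r t) (r (t + 1))) (t a : ℕ) :
    Nr (k * a) (r t) (r (t + a)) := by
  induction a with
  | zero => intro c; simp
  | succ a ih =>
    intro c
    have h1 := abs_le.mp (ih c)
    have h2 := abs_le.mp (h (t + a) c)
    rw [← add_assoc, abs_le]
    push_cast
    constructor <;> linarith [h1.1, h1.2, h2.1, h2.2]

open Classical in
def pick {α : Type} (P : α → Prop) : Option α := if h : ∃ p, P p then some h.choose else none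

lemma pick_some {α : Type} {P : α → Prop} {p : α} (h : pick P = some p) : P p := by
  unfold pick at h
  split_ifs at h with h1
  obtain rfl := Option.some.inj h
  exact h1.choose_spec

lemma pick_eq {α : Type} {P : α → Prop} {p : α} (h : P p) (hu : ∀ p', P p' → p' = p) :
    pick P = some p := by
  unfold pick
  rw [dif_pos ⟨p, h⟩, hu _ (Exists.choose_spec ⟨p, h⟩)]

lemma pick_none {α : Type} {P : α → Prop} (h : ∀ p, ¬ P p) : pick P = none := by
  unfold pick
  rw [dif_neg (fun ⟨p, hp⟩ => h p hp)]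

/-- `ι` cops at each point of `s ℤ^(n+1)` cover all times in `[3s, 4s)`. -/
def PP (n s : ℕ) (ι : Type) : Prop :=
  ∃ F : Pt n × ι → (ℕ → Pt n) → ℕ → Pt n,
    (∀ β r r' t, (∀ a < t, r a = r' a) → F β r t = F β r' t) ∧
    (∀ β r, F β r 0 = (s : ℤ) • β.1) ∧
    (∀ β r t, Nr 1 (F β r t) (F β r (t + 1))) ∧
    ∀ r, (∀ t, Nr 2 (r t) (r (t + 1))) → ∀ t, 3 * s ≤ t → t < 4 * s → ∃ β, F β r (t + 1) = r t

lemma PP_base : PP n 1 Unit :=
  ⟨fun β _ _ => β.1, fun _ _ _ _ _ => rfl, fun _ _ => by simp, fun _ _ _ c => by simp,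
    fun r _ t _ _ => ⟨(r t, ()), rfl⟩⟩

lemma div_near {x y s : ℤ} (hs : 0 < s) (h : |x - y| ≤ 2 * s) : |x / s - y / s| ≤ 2 := by
  obtain ⟨h1, h2⟩ := abs_le.mp h
  have a1 : x / s ≤ (y + 2 * s) / s := Int.ediv_le_ediv hs (by linarith)
  have a2 : y / s ≤ (x + 2 * s) / s := Int.ediv_le_ediv hs (by linarith)
  rw [Int.add_mul_ediv_right _ _ hs.ne'] at a1 a2
  rw [abs_le]; omega

lemma near_scale {s B : ℤ} (hs : 0 < s) {x : ℤ} (h : |s * x| ≤ B * s) : |x| ≤ B := by
  rw [abs_mul, abs_of_pos hs, mul_comm] at h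
  exact le_of_mul_le_mul_right h hs

lemma Nr_smul {s : ℕ} {k : ℤ} {v w : Pt n} (x : Pt n) (h : Nr k v w) :
    Nr (k * s) ((s : ℤ) • (x + v)) ((s : ℤ) • (x + w)) := by
  intro c
  have e : ((s : ℤ) • (x + v)) c - ((s : ℤ) • (x + w)) c = (v c - w c) * s := by simp; ring
  rw [e, abs_mul, Nat.abs_cast]
  exact mul_le_mul_of_nonneg_right (h c) (Nat.cast_nonneg _)

lemma PP_step (s L q : ℕ) (ι : Type) [Fintype ι] (hs : 0 < s) (hL : 10004 ≤ L)
    (hq : 480000 * (L : ℝ) * (L : ℝ) ^ (-(3 / 250 : ℝ)) * (1 / √L) ^ (n + 1) * Fintype.card ι +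
      2 ^ (3 * L * (2 ^ (n + 1)) ^ (12 * L)) ≤ q) (h : PP n s ι) :
    PP n (L * s) ((Fin (n + 1) → Fin L) × (Fin (n + 1) → Fin 40035) × Fin q) := by
  obtain ⟨F, F1, F2, F3, F4⟩ := h
  obtain ⟨C, slot, C1, S1, S2, S3⟩ := frac n L (Fintype.card ι) q (by omega) hq
  have e := Fintype.equivFin ι
  have hsZ : (0 : ℤ) < s := by exact_mod_cast hs
  let B := Pt n × (Fin (n + 1) → Fin L) × (Fin (n + 1) → Fin 40035) × Fin q
  let X : B → Pt n := fun β c => L * β.1 c + (β.2.1 c : ℕ)
  let x : B → Pt n := fun β c => ((β.2.2.1 c : ℕ) : ℤ) - 20017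
  let Z : (ℕ → Pt n) → ℕ → Pt n := fun r a c => r ((L - 1 + a) * s) c / s
  let rel : B → (ℕ → Pt n) → Pt n × Fin q := fun β r => (X β - Z r 0 - x β, β.2.2.2)
  let P : B → (ℕ → Pt n) → ℕ → ℕ × ι → Prop := fun β r t p =>
    L ≤ p.1 ∧ p.1 < 3 * L ∧ (L + p.1) * s < t ∧ slot (Z r) p.1 (e p.2) = rel β r
  let T : B → (ℕ → Pt n) → ℕ → Pt n := fun β r t =>
    match pick (P β r t) with
    | some p => F (x β + Z r p.1, p.2) (fun a => r ((L + p.1 + 10001) * s + a))
        (t - (L + p.1 + 10001) * s)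
    | none => if t ≤ L * s then (s : ℤ) • X β else
        (s : ℤ) • (x β + C (rel β r) (Z r) ((t - 1) / s + 1 - L))
  have hZc : ∀ (r r' : ℕ → Pt n) (t i : ℕ), (∀ a < t, r a = r' a) → (L - 1 + i) * s < t →
      ∀ a ≤ i, Z r a = Z r' a := by
    intro r r' t i h hi a ha
    funext c
    simp only [Z]
    rw [h _ (lt_of_le_of_lt (Nat.mul_le_mul_right s (by omega)) hi)]
  have hTc : ∀ β r r' t, (∀ a < t, r a = r' a) → T β r t = T β r' t := by
    intro β r r' t h
    have hP : P β r t = P β r' t := by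
      funext p
      simp only [P]
      refine propext (and_congr_right fun _ => and_congr_right fun _ => and_congr_right fun h3 => ?_)
      have := hZc r r' t p.1 h (lt_of_le_of_lt (Nat.mul_le_mul_right s (by omega)) h3)
      simp only [rel]
      rw [S1 _ _ _ this, this 0 (Nat.zero_le _)]
    simp only [T]
    rw [← hP]
    cases hp : pick (P β r t) with
    | some p =>
      have h3 := (pick_some hp).2.2.1
      have := hZc r r' t p.1 h (lt_of_le_of_lt (Nat.mul_le_mul_right s (by omega)) h3)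
      simp only
      rw [this p.1 le_rfl]
      exact F1 _ _ _ _ fun a ha => h _ (by omega)
    | none =>
      simp only
      split_ifs with ht
      · rfl
      · have h4 : L ≤ (t - 1) / s := (Nat.le_div_iff_mul_le hs).mpr (by omega)
        have h5 : (t - 1) / s * s ≤ t - 1 := Nat.div_mul_le_self _ _
        have := hZc r r' t ((t - 1) / s + 1 - L) h (by
          rw [show L - 1 + ((t - 1) / s + 1 - L) = (t - 1) / s by omega]; omega)
        simp only [rel]
        rw [this 0 (Nat.zero_le _), C1 _ _ _ _ this]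
  refine ⟨fun β r t => chase (((L * s : ℕ) : ℤ) • β.1) (T β r) t, ?_, fun _ _ => rfl,
    fun β r t => chase_lip _ _ _, ?_⟩
  · intro β r r' t h
    exact chase_congr _ _ fun a ha => hTc β r r' a fun b hb => h b (by omega)
  intro r hr t ht1 ht2
  -- the launching time
  obtain ⟨i, hi1, hi2, hi3, hi4⟩ : ∃ i, L ≤ i ∧ i < 3 * L ∧ (L + i + 10001) * s + 3 * s ≤ t ∧
      t < (L + i + 10001) * s + 4 * s := by
    have h1 : 3 * L ≤ t / s := (Nat.le_div_iff_mul_le hs).mpr (by nlinarith)
    have h2 : t / s < 4 * L := (Nat.div_lt_iff_lt_mul hs).mpr (by nlinarith)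
    have h3 : t / s * s ≤ t := Nat.div_mul_le_self _ _
    have h4 : t < (t / s + 1) * s := by
      have := Nat.lt_div_mul_add (a := t) hs
      linarith
    refine ⟨t / s - 10004 - L, by omega, by omega, ?_, ?_⟩
    · rw [← add_mul, show L + (t / s - 10004 - L) + 10001 + 3 = t / s by omega]; exact h3
    · rw [← add_mul, show L + (t / s - 10004 - L) + 10001 + 4 = t / s + 1 by omega]; exact h4
  set t0 := (L + i + 10001) * s with ht0
  set r' : ℕ → Pt n := fun a => r (t0 + a) with hr'
  obtain ⟨⟨X', l'⟩, hβ⟩ := F4 r' (fun a => hr (t0 + a)) (t - t0) (by omega) (by omega)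
  have hZ2 : ∀ a, Nr 2 (Z r a) (Z r (a + 1)) := by
    intro a c
    have := Nr_path hr ((L - 1 + a) * s) s c
    rw [show (L - 1 + a) * s + s = (L - 1 + (a + 1)) * s by ring] at this
    exact div_near hsZ this
  have hoff : ∀ c, |X' c - Z r i c| ≤ 20017 := by
    intro c
    have a1 := abs_le.mp (Nr_path (F3 (X', l') r') 0 (t - t0 + 1) c)
    rw [zero_add, hβ, F2] at a1
    have a2 := abs_le.mp (Nr_path hr ((L - 1 + i) * s) (t - (L - 1 + i) * s) c)
    have hle : (L - 1 + i) * s + 10002 * s = t0 := by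
      rw [ht0, ← add_mul]; congr 1; omega
    rw [show (L - 1 + i) * s + (t - (L - 1 + i) * s) = t by omega] at a2
    have a3 : r' (t - t0) = r t := by simp only [hr']; congr 1; omega
    rw [a3] at a1
    have a4 := Int.mul_ediv_add_emod (r ((L - 1 + i) * s) c) s
    have a5 := Int.emod_nonneg (r ((L - 1 + i) * s) c) hsZ.ne'
    have a6 := Int.emod_lt_of_pos (r ((L - 1 + i) * s) c) hsZ
    have a7 : ((t - t0 + 1 : ℕ) : ℤ) ≤ 4 * s := by omega
    have a8 : ((t - (L - 1 + i) * s : ℕ) : ℤ) ≤ 10006 * s := by omega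
    apply near_scale hsZ
    simp only [Pi.smul_apply, smul_eq_mul] at a1
    simp only [Z]
    rw [mul_sub, abs_le]
    constructor <;> linarith [a1.1, a1.2, a2.1, a2.2]
  set γ := slot (Z r) i (e l') with hγ
  set Xa : Pt n := γ.1 + Z r 0 + (X' - Z r i) with hXa
  have hLZ : (0 : ℤ) < L := by exact_mod_cast (by omega : 0 < L)
  let β : B := (fun c => Xa c / L,
    fun c => ⟨(Xa c % L).toNat, by
      have := Int.emod_lt_of_pos (Xa c) hLZ
      have := Int.emod_nonneg (Xa c) hLZ.ne'
      omega⟩,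
    fun c => ⟨(X' c - Z r i c + 20017).toNat, by have := abs_le.mp (hoff c); omega⟩, γ.2)
  have hX : X β = Xa := by
    funext c
    have := Int.emod_nonneg (Xa c) hLZ.ne'
    have := Int.mul_ediv_add_emod (Xa c) L
    simp only [X, β]
    omega
  have hx : x β = X' - Z r i := by
    funext c
    have := abs_le.mp (hoff c)
    simp only [x, β, Pi.sub_apply]
    omega
  have hrel : rel β r = γ := by
    simp only [rel, hX, hx, hXa]
    exact Prod.ext (by simp only; abel) rfl
  have hU : ∀ a p, P β r a p → p = (i, l') := by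
    intro a p hp
    obtain ⟨g1, g2⟩ := S2 (Z r) p.1 i (e p.2) (e l') hp.1 hp.2.1 hi1 hi2 (hp.2.2.2.trans hrel)
    exact Prod.ext g1 (e.injective g2)
  have hnone : ∀ a, a ≤ (L + i) * s → pick (P β r a) = none := by
    intro a ha
    refine pick_none fun p hp => ?_
    have := hp.2.2.1
    rw [hU a p hp] at this
    simp only at this
    omega
  obtain ⟨G1, G2, G3⟩ := S3 (Z r) i (e l') hi1 hi2
  rw [← hγ] at G1 G2 G3
  have hB : ∀ a ≤ i, chase (((L * s : ℕ) : ℤ) • β.1) (T β r) ((L + a) * s) =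
      (s : ℤ) • (x β + C γ (Z r) a) := by
    intro a
    induction a with
    | zero =>
      intro _
      have e0 : x β + C γ (Z r) 0 = X β := by rw [G1, hX, hx, hXa]; abel
      rw [e0]
      have := chase_const (((L * s : ℕ) : ℤ) • β.1) (T β r) ((s : ℤ) • X β) (L * s) 0 ?_ ?_
      · simpa using this
      · intro a _ ha
        simp only [T]
        rw [hnone a (by nlinarith), if_pos (by omega)]
      · intro c
        have hlt : ((β.2.1 c : ℕ) : ℤ) ≤ L := by exact_mod_cast (β.2.1 c).2.le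
        have e1 : chase (((L * s : ℕ) : ℤ) • β.1) (T β r) 0 c - ((s : ℤ) • X β) c =
            -(((β.2.1 c : ℕ) : ℤ) * s) := by
          simp only [chase, X, Pi.smul_apply, smul_eq_mul]; push_cast; ring
        rw [e1, abs_neg, abs_of_nonneg (by positivity)]
        push_cast
        exact mul_le_mul_of_nonneg_right hlt hsZ.le
    | succ a ih =>
      intro ha
      rw [show (L + (a + 1)) * s = (L + a) * s + s by ring]
      apply chase_const
      · intro b hb1 hb2
        have hb3 : (L + a) * s + s ≤ (L + i) * s := by nlinarith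
        simp only [T]
        rw [hnone b (by omega), if_neg (by nlinarith), hrel]
        have : (b - 1) / s = L + a := by
          apply Nat.div_eq_of_lt_le (by omega)
          rw [add_mul (L + a) 1 s]; omega
        rw [this, show L + a + 1 - L = a + 1 by omega]
      · rw [ih (by omega)]
        simpa using Nr_smul (s := s) (x β) (G3 a (by omega) (hZ2 a))
  have hT : ∀ a, (L + i) * s < a → T β r a = F (X', l') r' (a - t0) := by
    intro a ha
    simp only [T]
    rw [pick_eq (p := (i, l')) ⟨hi1, hi2, ha, hrel.symm⟩ (hU a)]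
    simp only
    rw [hx, sub_add_cancel]
  have ht0' : t0 = (L + i) * s + 10001 * s := by rw [ht0]; ring
  have hC : chase (((L * s : ℕ) : ℤ) • β.1) (T β r) t0 = F (X', l') r' 0 := by
    rw [ht0']
    apply chase_const
    · intro b hb1 hb2
      rw [hT b hb1, show b - t0 = 0 by omega]
    · rw [hB i le_rfl, F2]
      have := Nr_smul (s := s) (x β) G2
      rw [hx, sub_add_cancel, ← hx] at this
      simpa using this
  refine ⟨β, ?_⟩
  have := chase_follow _ (T β r) (F (X', l') r') t0 hC
    (fun a => by rw [hT _ (by omega), Nat.add_sub_cancel_left]) (F3 _ _) (t - t0 + 1)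
  rw [hβ, show t0 + (t - t0 + 1) = t + 1 by omega] at this
  simp only [hr'] at this
  rw [show t0 + (t - t0) = t by omega] at this
  exact this

end

end Pool.Agent.P.MP_767cd9_co
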