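import Pool.Agent.P.MP_767cd9_co.MeasD

/-! Rounding a measure to finitely many points; volume bounds. -/

namespace Pool.Agent.P.MP_767cd9_co

open Real MeasureTheory Set

noncomputable section

open Classical in
lemma round_meas {Ω : Type*} [MeasurableSpace Ω] [Nonempty Ω] (μ : Measure Ω) {ι : Type}
    [Fintype ι] (A : ι → Set Ω) (hA : ∀ i, MeasurableSet (A i)) (S : Set Ω)
    (hS : MeasurableSet S) (r D : ℝ) (hr : 0 ≤ r) (hD0 : 0 ≤ D) (hD : μ S ≤ ENNReal.ofReal D)
    (q : ℕ) (hq : r * D + 2 ^ Fintype.card ι ≤ q) :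
    ∃ lab : Fin q → Ω, ∀ i, r * (μ (A i ∩ S)).toReal ≤
      (Finset.univ.filter fun l => lab l ∈ A i ∩ S).card := by
  set τ : Ω → (ι → Bool) := fun ω i => decide (ω ∈ A i) with hτ
  have hτm : ∀ α, MeasurableSet (τ ⁻¹' {α}) := by
    intro α
    have : τ ⁻¹' {α} = ⋂ i, if α i then A i else (A i)ᶜ := by
      ext ω
      simp only [mem_preimage, mem_singleton_iff, mem_iInter, funext_iff, hτ]
      refine forall_congr' fun i => ?_
      cases α i <;> simp
    rw [this]
    exact MeasurableSet.iInter fun i => by split_ifs; exacts [hA i, (hA i).compl]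
  have hfin : μ S ≠ ⊤ := ne_top_of_le_ne_top ENNReal.ofReal_ne_top hD
  set ν := μ.restrict S with hν
  have hνle : ∀ B, ν B ≤ μ S := fun B =>
    (measure_mono (subset_univ B)).trans (le_of_eq (Measure.restrict_apply_univ S))
  have hνfin : ∀ B, ν B ≠ ⊤ := fun B => ne_top_of_le_ne_top hfin (hνle B)
  have hsum : ∀ s : Finset (ι → Bool), ∑ α ∈ s, (ν (τ ⁻¹' {α})).toReal = (ν (τ ⁻¹' s)).toReal := by
    intro s
    rw [← ENNReal.toReal_sum (fun α _ => hνfin _),
      sum_measure_preimage_singleton s (fun α _ => hτm α)]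
  set N : (ι → Bool) → ℕ := fun α => ⌈r * (ν (τ ⁻¹' {α})).toReal⌉₊ with hN
  have hcard : Fintype.card (Σ α, Fin (N α)) ≤ Fintype.card (Fin q) := by
    rw [Fintype.card_sigma, Fintype.card_fin]
    simp only [Fintype.card_fin]
    have h1 : ((∑ α, N α : ℕ) : ℝ) ≤ ∑ α : ι → Bool, (r * (ν (τ ⁻¹' {α})).toReal + 1) := by
      push_cast
      exact Finset.sum_le_sum fun α _ => (Nat.ceil_lt_add_one (by positivity)).le
    rw [Finset.sum_add_distrib, ← Finset.mul_sum, hsum] at h1
    have h2 : (ν (τ ⁻¹' (Finset.univ : Finset (ι → Bool)))).toReal ≤ D := by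
      apply ENNReal.toReal_le_of_le_ofReal hD0
      exact le_trans (hνle _) hD
    have h3 : (∑ α : ι → Bool, (1 : ℝ)) = 2 ^ Fintype.card ι := by simp
    have : ((∑ α, N α : ℕ) : ℝ) ≤ q := by nlinarith
    exact_mod_cast this
  obtain ⟨e⟩ := Function.Embedding.nonempty_of_card_le hcard
  have hrep : ∀ α, ∃ ω, 0 < N α → ω ∈ τ ⁻¹' {α} ∩ S := by
    intro α
    by_cases h : (τ ⁻¹' {α} ∩ S).Nonempty
    · exact ⟨h.some, fun _ => h.some_mem⟩
    · refine ⟨Classical.arbitrary _, fun hpos => absurd hpos ?_⟩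
      rw [not_nonempty_iff_eq_empty] at h
      simp [hN, hν, Measure.restrict_apply (hτm α), h]
  choose rep hrep using hrep
  refine ⟨Function.extend e (fun t => rep t.1) (fun _ => Classical.arbitrary _), fun i => ?_⟩
  set s : Finset (ι → Bool) := Finset.univ.filter fun α => α i = true with hs
  have h1 : τ ⁻¹' s = A i := by ext ω; simp [hs, hτ]
  have h2 : μ (A i ∩ S) = ν (τ ⁻¹' s) := by rw [h1, hν, Measure.restrict_apply (hA i)]
  rw [h2, ← hsum, Finset.mul_sum]
  refine le_trans (Finset.sum_le_sum fun α _ => Nat.le_ceil _) ?_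
  have h3 : ∑ α ∈ s, N α = ((s.sigma fun α => (Finset.univ : Finset (Fin (N α)))).map e).card := by
    simp [Finset.card_sigma]
  have h4 : ((s.sigma fun α => (Finset.univ : Finset (Fin (N α)))).map e) ⊆
      Finset.univ.filter fun l => Function.extend e (fun t => rep t.1)
        (fun _ => Classical.arbitrary _) l ∈ A i ∩ S := by
    intro l hl
    obtain ⟨t, ht, rfl⟩ := Finset.mem_map.mp hl
    rw [Finset.mem_filter, e.injective.extend_apply]
    have := hrep t.1 (Fin.pos t.2)
    refine ⟨Finset.mem_univ _, ?_, this.2⟩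
    rw [← h1]
    have h5 : τ (rep t.1) = t.1 := this.1
    rw [mem_preimage, h5]
    exact (Finset.mem_sigma.mp ht).1
  have := Finset.card_le_card h4
  rw [← h3] at this
  exact_mod_cast this

variable {n : ℕ}

def E0 (n : ℕ) : Set (Lab n) := Icc (10000 : ℝ) (10000 + 1 / 2) ×ˢ Icc 0 1

lemma E0_compact : IsCompact (E0 n) := isCompact_Icc.prod isCompact_Icc

lemma E0_dom : E0 n ⊆ Dom n := by
  intro y hy
  refine ⟨hy.1.1, fun i => ?_⟩
  have h1 : (1 : ℝ) ≤ √y.1 := Real.le_sqrt_of_sq_le (by linarith [hy.1.1])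
  have h2 : 0 ≤ y.2 i := hy.2.1 i
  have h3 : y.2 i ≤ 1 := hy.2.2 i
  rw [abs_of_nonneg h2]; linarith

lemma mu_E0 : ENNReal.ofReal (1 / 40000) ≤ mu n (E0 n) := by
  have hm : MeasurableSet (E0 n) := E0_compact.measurableSet
  unfold mu
  rw [withDensity_apply _ hm]
  have h1 : ∫⁻ _ in E0 n, ENNReal.ofReal (1 / 20000) ≤ ∫⁻ y in E0 n, WW y.1 := by
    refine setLIntegral_mono' hm fun y hy => ENNReal.ofReal_le_ofReal ?_
    have h2 : y.1 ^ (-1 : ℝ) ≤ y.1 ^ (-(3 / 250 : ℝ)) :=
      Real.rpow_le_rpow_of_exponent_le (by linarith [hy.1.1]) (by norm_num)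
    rw [Real.rpow_neg_one] at h2
    refine le_trans ?_ h2
    rw [one_div]
    exact inv_anti₀ (by linarith [hy.1.1]) (by linarith [hy.1.2])
  refine le_trans (le_of_eq ?_) h1
  rw [setLIntegral_const]
  unfold E0
  rw [Measure.volume_eq_prod, Measure.prod_prod, Real.volume_Icc, Real.volume_Icc_pi]
  simp only [Pi.one_apply, Pi.zero_apply, sub_zero, ENNReal.ofReal_one, Finset.prod_const_one,
    mul_one]
  rw [← ENNReal.ofReal_mul (by norm_num)]
  norm_num

/-- coarse cell of a label -/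
def cp (y : Lab n) : Fin (n + 1) → ℤ := fun i => ⌊pp y.1 (y.2 i) / 4⌋

def SS (L : ℝ) (X : Fin (n + 1) → ℤ) : Set (Lab n) := {y | y.1 ∈ Icc (4 * L) (16 * L) ∧ cp y = X}

lemma meas_SS (L : ℝ) (X : Fin (n + 1) → ℤ) : MeasurableSet (SS L X) := by
  have : Measurable (cp : Lab n → Fin (n + 1) → ℤ) := by
    refine measurable_pi_iff.mpr fun i => Measurable.floor ?_
    unfold pp; fun_prop
  exact (measurable_fst measurableSet_Icc).inter (this (measurableSet_singleton X))

lemma pp_sep {s x y : ℝ} (h : x ≤ y) : 2 * √s * (y - x) ≤ pp s y - pp s x := by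
  unfold pp
  have : x * |x| ≤ y * |y| := by
    rcases le_total 0 x with hx | hx
    · rw [abs_of_nonneg hx, abs_of_nonneg (by linarith)]; nlinarith
    · rcases le_total 0 y with hy | hy
      · rw [abs_of_nonpos hx, abs_of_nonneg hy]; nlinarith
      · rw [abs_of_nonpos hx, abs_of_nonpos hy]; nlinarith
  linarith

lemma cell_diam {L s x y : ℝ} (hL : 0 < L) (hs : 4 * L ≤ s)
    (h : ⌊pp s x / 4⌋ = ⌊pp s y / 4⌋) : |x - y| ≤ 1 / √L := by
  have h1 := abs_lt.mp (Int.abs_sub_lt_one_of_floor_eq_floor h)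
  have h2 : 2 * √L ≤ √s := by
    apply Real.le_sqrt_of_sq_le
    rw [mul_pow, Real.sq_sqrt hL.le]; linarith
  have h3 : 0 < √L := Real.sqrt_pos.mpr hL
  rw [le_div_iff₀ h3]
  rcases le_total x y with hxy | hxy
  · have := pp_sep (s := s) hxy
    rw [abs_of_nonpos (by linarith)]; nlinarith
  · have := pp_sep (s := s) hxy
    rw [abs_of_nonneg (by linarith)]; nlinarith

lemma mu_SS {L : ℝ} (hL : 1 ≤ L) (X : Fin (n + 1) → ℤ) :
    mu n (SS L X) ≤ ENNReal.ofReal (12 * L * L ^ (-(3 / 250 : ℝ)) * (1 / √L) ^ (n + 1)) := by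
  rw [mu_apply (meas_SS L X)]
  refine le_trans (lintegral_prod_le _) ?_
  set c : ENNReal := ENNReal.ofReal (L ^ (-(3 / 250 : ℝ)) * (1 / √L) ^ (n + 1)) with hc
  have h1 : ∀ s : ℝ, ∫⁻ j, (SS L X).indicator 1 (s, j) * WW s ≤
      (Icc (4 * L) (16 * L)).indicator (fun _ => c) s := by
    intro s
    by_cases hs : s ∈ Icc (4 * L) (16 * L)
    swap
    · have : ∀ j, (SS L X).indicator (1 : Lab n → ENNReal) (s, j) = 0 :=
        fun j => indicator_of_notMem (fun h => hs h.1) _
      simp [this]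
    rw [indicator_of_mem hs]
    have hm : MeasurableSet (Prod.mk s ⁻¹' SS L X) := measurable_prodMk_left (meas_SS L X)
    have e : ∫⁻ j, (SS L X).indicator 1 (s, j) * WW s = WW s * volume (Prod.mk s ⁻¹' SS L X) := by
      rw [← lintegral_indicator_const hm]
      congr 1; funext j
      by_cases h : (s, j) ∈ SS L X <;> simp [h]
    rw [e, hc, ENNReal.ofReal_mul (by positivity), ENNReal.ofReal_pow (by positivity)]
    gcongr
    · exact ENNReal.ofReal_le_ofReal
        (Real.rpow_le_rpow_of_nonpos (by linarith) (by linarith [hs.1]) (by norm_num))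
    · refine le_trans (Real.volume_pi_le_diam_pow _) ?_
      rw [Fintype.card_fin]
      gcongr
      apply Metric.ediam_le_of_forall_dist_le
      intro x hx y hy
      rw [dist_pi_le_iff (by positivity)]
      intro i
      exact cell_diam (by linarith) hs.1 ((congrFun hx.2 i).trans (congrFun hy.2 i).symm)
  refine le_trans (lintegral_mono h1) (le_of_eq ?_)
  rw [lintegral_indicator_const measurableSet_Icc, Real.volume_Icc, hc,
    ← ENNReal.ofReal_mul (by positivity)]
  congr 1; ring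

end

end Pool.Agent.P.MP_767cd9_co
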